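import Pool.Agent.H746R3.Inv.Approx
import Pool.Agent.H746R3.Inv.Count

/-!
# Approximation by functions of low degree over the field with three elements
-/

namespace H345Z.WP

open Finset H746R3.Inv

/-- the field with three elements -/
abbrev F : Type := ZMod 3

instance factPrimeThree : Fact (Nat.Prime 3) := ⟨Nat.prime_three⟩

variable {V : Type} [Fintype V] [DecidableEq V]

/-- `f` agrees with a function of degree at most `d` outside a set of at most `e` points -/
def Apx (d e : ℕ) (f : (V → Bool) → F) : Prop :=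
  ∃ p ∈ LD F V d, ∃ E : Finset (V → Bool), E.card ≤ e ∧ ∀ y, y ∉ E → p y = f y

open Classical in
/-- the indicator function of a predicate -/
noncomputable def ind (P : (V → Bool) → Prop) : (V → Bool) → F := fun y => if P y then 1 else 0

/-- the predicate version -/
def ApxP (d e : ℕ) (P : (V → Bool) → Prop) : Prop := Apx d e (ind P)

omit [Fintype V] [DecidableEq V] in
theorem ind_of {P : (V → Bool) → Prop} {y : V → Bool} (h : P y) : ind P y = 1 := by
  simp [ind, h]

omit [Fintype V] [DecidableEq V] in
theorem ind_of_not {P : (V → Bool) → Prop} {y : V → Bool} (h : ¬ P y) : ind P y = 0 := by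
  simp [ind, h]

omit [Fintype V] in
theorem Apx.mono {d e d' e' : ℕ} {f : (V → Bool) → F} (h : Apx d e f) (hd : d ≤ d')
    (he : e ≤ e') : Apx d' e' f := by
  obtain ⟨p, hp, E, hE, h⟩ := h
  exact ⟨p, LD_mono hd hp, E, hE.trans he, h⟩

omit [Fintype V] in
theorem ApxP.mono {d e d' e' : ℕ} {P : (V → Bool) → Prop} (h : ApxP d e P) (hd : d ≤ d')
    (he : e ≤ e') : ApxP d' e' P := Apx.mono h hd he

omit [Fintype V] in
theorem Apx.congr {d e : ℕ} {f g : (V → Bool) → F} (h : Apx d e f) (hfg : ∀ y, f y = g y) :
    Apx d e g := by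
  have : f = g := funext hfg
  rwa [← this]

omit [Fintype V] in
theorem ApxP.congr {d e : ℕ} {P Q : (V → Bool) → Prop} (h : ApxP d e P) (hPQ : ∀ y, P y ↔ Q y) :
    ApxP d e Q := by
  have : P = Q := funext fun y => propext (hPQ y)
  rwa [← this]

omit [Fintype V] in
theorem Apx.const (d e : ℕ) (c : F) : Apx d e (fun _ : V → Bool => c) :=
  ⟨fun _ => c, const_mem c d, ∅, by simp, fun _ _ => rfl⟩

omit [Fintype V] in
theorem ApxP.const (d e : ℕ) (P : Prop) : ApxP d e (fun _ : V → Bool => P) := by
  classical
  exact (Apx.const d e (if P then 1 else 0)).congr fun y => by simp [ind]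

theorem Apx.add {d e e' : ℕ} {f g : (V → Bool) → F} (hf : Apx d e f) (hg : Apx d e' g) :
    Apx d (e + e') (fun y => f y + g y) := by
  obtain ⟨p, hp, E, hE, h⟩ := hf
  obtain ⟨q, hq, E', hE', h'⟩ := hg
  refine ⟨p + q, Submodule.add_mem _ hp hq, E ∪ E',
    (Finset.card_union_le _ _).trans (Nat.add_le_add hE hE'), ?_⟩
  intro y hy
  rw [Finset.mem_union, not_or] at hy
  rw [Pi.add_apply, h y hy.1, h' y hy.2]

theorem Apx.mul {d d' e e' : ℕ} {f g : (V → Bool) → F} (hf : Apx d e f) (hg : Apx d' e' g) :
    Apx (d + d') (e + e') (fun y => f y * g y) := by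
  obtain ⟨p, hp, E, hE, h⟩ := hf
  obtain ⟨q, hq, E', hE', h'⟩ := hg
  refine ⟨p * q, H746R3.Inv.mul_mem hp hq, E ∪ E',
    (Finset.card_union_le _ _).trans (Nat.add_le_add hE hE'), ?_⟩
  intro y hy
  rw [Finset.mem_union, not_or] at hy
  rw [Pi.mul_apply, h y hy.1, h' y hy.2]

omit [Fintype V] in
theorem Apx.smul {d e : ℕ} {f : (V → Bool) → F} (c : F) (hf : Apx d e f) :
    Apx d e (fun y => c * f y) := by
  obtain ⟨p, hp, E, hE, h⟩ := hf
  refine ⟨c • p, Submodule.smul_mem _ _ hp, E, hE, ?_⟩
  intro y hy
  rw [Pi.smul_apply, h y hy, smul_eq_mul]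

theorem Apx.sub {d e e' : ℕ} {f g : (V → Bool) → F} (hf : Apx d e f) (hg : Apx d e' g) :
    Apx d (e + e') (fun y => f y - g y) :=
  (hf.add (hg.smul (-1))).congr fun y => by ring

theorem Apx.sum {ι : Type*} (s : Finset ι) {d e : ℕ} {f : ι → (V → Bool) → F}
    (hf : ∀ i ∈ s, Apx d e (f i)) : Apx d (s.card * e) (fun y => ∑ i ∈ s, f i y) := by
  classical
  induction s using Finset.induction_on with
  | empty => simpa using Apx.const d 0 (0 : F)
  | insert i s hi ih =>
    have h1 := (hf i (Finset.mem_insert_self _ _)).add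
      (ih fun j hj => hf j (Finset.mem_insert_of_mem hj))
    rw [Finset.card_insert_of_notMem hi]
    refine (h1.mono le_rfl (by rw [add_mul, one_mul, add_comm])).congr fun y => ?_
    rw [Finset.sum_insert hi]

theorem F_ind (a z : F) : 1 - (a - z) ^ 2 = if a = z then 1 else 0 := by
  revert a z; decide

omit [Fintype V] in
theorem Apx.eq_const {d e : ℕ} {f : (V → Bool) → F} (hf : Apx d e f) (z : F) :
    ApxP (2 * d) e (fun y => f y = z) := by
  obtain ⟨p, hp, E, hE, h⟩ := hf
  refine ⟨1 - (p - fun _ => z) ^ 2, Submodule.sub_mem _ (H746R3.Inv.one_mem _)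
    (pow_mem' (Submodule.sub_mem _ hp (const_mem z d)) 2), E, hE, ?_⟩
  intro y hy
  simp only [Pi.sub_apply, Pi.one_apply, Pi.pow_apply, h y hy, F_ind, ind]
  split_ifs <;> rfl

omit [Fintype V] in
theorem ApxP.not {d e : ℕ} {P : (V → Bool) → Prop} (h : ApxP d e P) :
    ApxP d e (fun y => ¬ P y) := by
  obtain ⟨p, hp, E, hE, h⟩ := h
  refine ⟨1 - p, Submodule.sub_mem _ (H746R3.Inv.one_mem _) hp, E, hE, ?_⟩
  intro y hy
  rw [Pi.sub_apply, h y hy]
  by_cases hP : P y
  · rw [ind_of hP, ind_of_not (by simpa using hP)]; simp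
  · rw [ind_of_not hP, ind_of (by simpa using hP)]; simp

theorem ApxP.and {d d' e e' : ℕ} {P Q : (V → Bool) → Prop} (hP : ApxP d e P)
    (hQ : ApxP d' e' Q) : ApxP (d + d') (e + e') (fun y => P y ∧ Q y) := by
  refine (Apx.mul hP hQ).congr fun y => ?_
  by_cases h1 : P y
  · by_cases h2 : Q y
    · rw [ind_of h1, ind_of h2, ind_of (P := fun y => P y ∧ Q y) ⟨h1, h2⟩, mul_one]
    · rw [ind_of_not h2, ind_of_not (P := fun y => P y ∧ Q y) (fun h => h2 h.2), mul_zero]
  · rw [ind_of_not h1, ind_of_not (P := fun y => P y ∧ Q y) (fun h => h1 h.1), zero_mul]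

/-- the number of errors made by one approximation of a conjunction -/
def eta (V : Type) [Fintype V] (t : ℕ) : ℕ := 2 ^ Fintype.card V / 3 ^ t

theorem ApxP.all {ι : Type*} (s : Finset ι) (t : ℕ) {d e : ℕ} {P : ι → (V → Bool) → Prop}
    (hP : ∀ i ∈ s, ApxP d e (P i)) :
    ApxP (2 * t * d) (s.card * e + eta V t) (fun y => ∀ i ∈ s, P i y) := by
  classical
  have hP' : ∀ i : s, ApxP d e (fun y => ¬ P i y) := fun i => (hP i i.2).not
  choose p hp E hE h using hP'
  obtain ⟨q, hq, E₀, hE₀, hq1, hq0⟩ := nor_approx (p := 3) (K := F) (univ : Finset (V → Bool))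
    d t p hp
  refine ⟨q, LD_mono (by norm_num; nlinarith) hq, (univ.biUnion E) ∪ E₀, ?_, ?_⟩
  · refine (Finset.card_union_le _ _).trans (Nat.add_le_add ?_ ?_)
    · refine Finset.card_biUnion_le.trans ?_
      calc ∑ i : s, (E i).card ≤ ∑ _i : s, e := Finset.sum_le_sum fun i _ => hE i
        _ = s.card * e := by simp
    · unfold eta
      rw [Nat.le_div_iff_mul_le (by positivity)]
      simpa using hE₀
  · intro y hy
    rw [Finset.mem_union, not_or] at hy
    have hy1 : ∀ i : s, p i y = ind (fun y => ¬ P i y) y := by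
      intro i
      refine h i y fun hi => hy.1 ?_
      exact Finset.mem_biUnion.2 ⟨i, Finset.mem_univ _, hi⟩
    by_cases hall : ∀ i ∈ s, P i y
    · rw [ind_of (P := fun y => ∀ i ∈ s, P i y) hall]
      refine hq1 y fun i => ?_
      rw [hy1 i, ind_of_not (by simpa using hall i i.2)]
    · rw [ind_of_not (P := fun y => ∀ i ∈ s, P i y) hall]
      refine hq0 y (Finset.mem_univ _) hy.2 ?_ ?_
      · intro i
        rw [hy1 i]
        by_cases hi : P i y
        · left; exact ind_of_not (by simpa using hi)
        · right; exact ind_of hi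
      · push Not at hall
        obtain ⟨i, hi, hPi⟩ := hall
        exact ⟨⟨i, hi⟩, by rw [hy1]; exact ind_of hPi⟩

/-- any function of `k` approximable bits -/
theorem Apx.fn {k d e : ℕ} {g : Fin k → (V → Bool) → Bool}
    (hg : ∀ s, ApxP d e (fun y => g s y = true)) (φ : (Fin k → Bool) → F) :
    Apx (k * d) (k * e) (fun y => φ (fun s => g s y)) := by
  classical
  choose p hp E hE h using hg
  refine ⟨∑ u : Fin k → Bool, φ u • ∏ s, (if u s then p s else 1 - p s), ?_,
    univ.biUnion E, ?_, ?_⟩
  · refine Submodule.sum_mem _ fun u _ => Submodule.smul_mem _ _ ?_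
    have h1 := prod_mem' (K := F) (V := V) univ (fun s => if u s then p s else 1 - p s)
      (fun _ => d) (fun s _ => by
        split_ifs
        · exact hp s
        · exact Submodule.sub_mem _ (H746R3.Inv.one_mem _) (hp s))
    simpa using h1
  · refine Finset.card_biUnion_le.trans ?_
    calc ∑ s, (E s).card ≤ ∑ _s : Fin k, e := Finset.sum_le_sum fun s _ => hE s
      _ = k * e := by simp
  · intro y hy
    have hy1 : ∀ s, p s y = if g s y = true then 1 else 0 := by
      intro s
      rw [h s y fun hs => hy (Finset.mem_biUnion.2 ⟨s, Finset.mem_univ _, hs⟩)]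
      by_cases hg : g s y = true
      · rw [ind_of (P := fun y => g s y = true) hg, if_pos hg]
      · rw [ind_of_not (P := fun y => g s y = true) hg, if_neg hg]
    rw [Finset.sum_apply, Finset.sum_eq_single (fun s => g s y)]
    · rw [Pi.smul_apply, Finset.prod_apply, smul_eq_mul]
      have : ∏ s, (if g s y = true then p s else 1 - p s) y = 1 := by
        refine Finset.prod_eq_one fun s _ => ?_
        by_cases hg : g s y = true
        · rw [if_pos hg, hy1, if_pos hg]
        · rw [if_neg hg, Pi.sub_apply, hy1, if_neg hg]; simp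
      rw [this, mul_one]
    · intro u _ hu
      obtain ⟨s, hs⟩ : ∃ s, u s ≠ g s y := by
        by_contra hcon
        push Not at hcon
        exact hu (funext hcon)
      rw [Pi.smul_apply, Finset.prod_apply, smul_eq_mul]
      refine mul_eq_zero_of_right _ (Finset.prod_eq_zero (Finset.mem_univ s) ?_)
      by_cases hg : g s y = true
      · have : ¬ u s = true := by rw [← hg]; exact hs
        rw [if_neg this, Pi.sub_apply, hy1, if_pos hg]; simp
      · have : u s = true := by
          cases hu : u s
          · exfalso; apply hs; rw [hu]; simpa using hg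
          · rfl
        rw [if_pos this, hy1, if_neg hg]
    · intro h
      exact absurd (Finset.mem_univ _) h

omit [Fintype V] in
theorem ApxP.input (i : V) : ApxP 1 0 (fun y : V → Bool => y i = true) := by
  refine ⟨fun y => bK (y i), coord_mem i, ∅, le_rfl, ?_⟩
  intro y _
  by_cases h : y i = true
  · rw [ind_of (P := fun y : V → Bool => y i = true) h]
    simp only [h]; rfl
  · rw [ind_of_not (P := fun y : V → Bool => y i = true) h]
    have : y i = false := by simpa using h
    simp only [this]; rfl

theorem cb_bound (m : ℕ) : (Nat.centralBinom m) ^ 2 * (2 * m + 1) ≤ 16 ^ m := by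
  induction m with
  | zero => simp
  | succ m ih =>
    have h := Nat.succ_mul_centralBinom_succ m
    have h1 : (m + 1) ^ 2 * ((Nat.centralBinom (m + 1)) ^ 2 * (2 * (m + 1) + 1))
        ≤ (m + 1) ^ 2 * 16 ^ (m + 1) := by
      calc (m + 1) ^ 2 * ((Nat.centralBinom (m + 1)) ^ 2 * (2 * (m + 1) + 1))
          = ((m + 1) * Nat.centralBinom (m + 1)) ^ 2 * (2 * m + 3) := by ring
        _ = (2 * (2 * m + 1) * Nat.centralBinom m) ^ 2 * (2 * m + 3) := by rw [h]
        _ = (Nat.centralBinom m ^ 2 * (2 * m + 1)) * (4 * ((2 * m + 1) * (2 * m + 3))) := by ring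
        _ ≤ 16 ^ m * (16 * (m + 1) ^ 2) := Nat.mul_le_mul ih (by nlinarith)
        _ = (m + 1) ^ 2 * 16 ^ (m + 1) := by ring
    exact Nat.le_of_mul_le_mul_left h1 (by positivity)

/-- the number of small subsets -/
theorem card_small (r D : ℕ) {W : Type} [Fintype W] [DecidableEq W] (hW : Fintype.card W = 2 * r) :
    2 * (univ.filter fun B : Finset W => B.card ≤ r + D).card ≤
      2 ^ (2 * r) + 2 * ((D + 1) * Nat.centralBinom r) := by
  classical
  have hsplit : (univ.filter fun B : Finset W => B.card ≤ r + D) ⊆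
      (univ.filter fun B : Finset W => B.card < r) ∪
        (Finset.range (D + 1)).biUnion (fun j => Finset.powersetCard (r + j) univ) := by
    intro B hB
    rw [Finset.mem_filter] at hB
    rw [Finset.mem_union]
    by_cases h : B.card < r
    · left; simpa using h
    · right
      refine Finset.mem_biUnion.2 ⟨B.card - r, Finset.mem_range.2 (by omega), ?_⟩
      rw [Finset.mem_powersetCard]
      exact ⟨Finset.subset_univ _, by omega⟩
  have h1 : 2 * (univ.filter fun B : Finset W => B.card < r).card ≤ 2 ^ (2 * r) := by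
    have h2 : (univ.filter fun B : Finset W => B.card < r).card ≤
        (univ.filter fun B : Finset W => ¬ B.card < r).card := by
      refine Finset.card_le_card_of_injOn (fun B => Bᶜ) ?_ ?_
      · intro B hB
        simp only [Finset.coe_filter, Finset.mem_univ, true_and, Set.mem_ofPred_eq] at hB ⊢
        rw [Finset.card_compl, hW]
        omega
      · intro B _ B' _ h
        exact compl_injective h
    have h3 := Finset.card_filter_add_card_filter_not (s := (univ : Finset (Finset W)))
      (fun B : Finset W => B.card < r)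
    rw [Finset.card_univ, Fintype.card_finset, hW] at h3
    omega
  have h4 : ((Finset.range (D + 1)).biUnion
      (fun j => Finset.powersetCard (r + j) (univ : Finset W))).card ≤
      (D + 1) * Nat.centralBinom r := by
    refine Finset.card_biUnion_le.trans ?_
    calc ∑ j ∈ Finset.range (D + 1), (Finset.powersetCard (r + j) (univ : Finset W)).card
        ≤ ∑ _j ∈ Finset.range (D + 1), Nat.centralBinom r := by
          refine Finset.sum_le_sum fun j _ => ?_
          rw [Finset.card_powersetCard, Finset.card_univ, hW]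
          exact Nat.choose_le_centralBinom _ _
      _ = (D + 1) * Nat.centralBinom r := by simp
  have h5 := (Finset.card_le_card hsplit).trans (Finset.card_union_le _ _)
  omega

theorem zz_prod (n : ℕ) (x : Fin n → Bool) :
    ∏ i, (zz (-1 : F) (x i)) = (-1) ^ ((List.ofFn x).count true) := by
  rw [count_ofFn, Finset.prod_pow_eq_pow_sum _ _ _ |>.symm]
  refine Finset.prod_congr rfl fun i _ => ?_
  cases x i <;> simp [zz]

/-- Smolensky's bound for the parity function -/
theorem parity_bound (r d e : ℕ)
    (h : ApxP (V := Unit × Fin (2 * r)) d e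
      (fun y => Odd ((List.ofFn fun i => y ((), i)).count true))) :
    2 ^ (2 * r) ≤ 2 * e + 2 * ((d + 1) * Nat.centralBinom r) := by
  classical
  have h1 : Apx (V := Unit × Fin (2 * r)) d e (fun y => ∏ i, zz (-1 : F) (y ((), i))) := by
    have h2 := (Apx.const (V := Unit × Fin (2 * r)) d 0 1).add (Apx.smul (-2) h)
    rw [zero_add] at h2
    refine h2.congr fun y => ?_
    rw [zz_prod]
    by_cases ho : Odd ((List.ofFn fun i => y ((), i)).count true)
    · rw [ind_of (P := fun y : Unit × Fin (2 * r) → Bool =>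
        Odd ((List.ofFn fun i => y ((), i)).count true)) ho, ho.neg_one_pow]
      ring
    · rw [ind_of_not (P := fun y : Unit × Fin (2 * r) → Bool =>
        Odd ((List.ofFn fun i => y ((), i)).count true)) ho,
        (Nat.not_odd_iff_even.1 ho).neg_one_pow]
      ring
  obtain ⟨p, hp, E, hE, hpE⟩ := h1
  have h3 := dp_count (K := F) (J := Unit) r d (r + d) (-1) (by decide) (by decide)
    (univ \ E) (fun _ => p) (fun _ => hp) (by
      intro b hb j
      rw [hpE b (Finset.mem_sdiff.1 hb).2])
  have h4 : (univ.filter fun A : Finset (Unit × Fin (2 * r)) =>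
        r + d < ∑ j, (min (sec A j).card (2 * r - (sec A j).card) + d)) = ∅ := by
    rw [Finset.filter_eq_empty_iff]
    intro A _
    simp only [Finset.univ_unique, Finset.sum_singleton, not_lt]
    omega
  rw [h4, Finset.card_empty, add_zero] at h3
  have h5 := card_small r d (W := Unit × Fin (2 * r)) (by simp)
  have h6 : (univ \ E).card + E.card = 2 ^ (2 * r) := by
    rw [Finset.card_sdiff_add_card_eq_card (Finset.subset_univ _), Finset.card_univ,
      Fintype.card_fun]
    simp
  omega

end H345Z.WP
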