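import Mathlib

/-!
# Alternating logarithmic time, constant depth oracle circuits, word problems

Languages are sets of binary words.
-/

namespace H345Z.WP

/-- The movement of a tape head. -/
inductive Move : Type
  | left : Move
  | stay : Move
  | right : Move

/-- The new position of a head on a one-sided tape with cells `0, 1, 2, …`
(a head on cell `0` that moves left stays there). -/
def Move.apply : Move → ℕ → ℕ
  | .left, p => p - 1
  | .stay, p => p
  | .right, p => p + 1

/-- An alternating Turing machine with random access to its input. It has a finite set of
states, each existential or universal, `k` one-sided work tapes over a finite alphabet, and an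
index tape over `{0, 1}` (blank is `0`) whose content, read as a binary number (cell `i` has weight
`2 ^ i`), is the address of the input symbol that the machine sees. -/
structure ATM : Type 1 where
  /-- the states -/
  Q : Type
  /-- there are finitely many states -/
  finQ : Finite Q
  /-- the alphabet of the work tapes -/
  Γ : Type
  /-- the alphabet is finite -/
  finΓ : Finite Γ
  /-- the blank symbol -/
  blank : Γ
  /-- the number of work tapes -/
  k : ℕ
  /-- the initial state -/
  start : Q
  /-- `true` for universal states, `false` for existential states -/
  universal : Q → Bool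
  /-- The transition relation. It reads the state, the addressed input symbol (`none` if the
  address is at least the length of the input), and for the index tape and each work tape the
  scanned symbol together with a flag saying whether the head is on the leftmost cell. It gives
  the set of allowed actions: a new state, and for each tape a symbol to write and a move. -/
  δ : Q → Option Bool → Bool × Bool → (Fin k → Γ × Bool) →
    Set (Q × (Bool × Move) × (Fin k → Γ × Move))

/-- A configuration. -/
structure ATM.Cfg (M : ATM) : Type where
  /-- the state -/
  state : M.Q
  /-- the cells of the index tape that hold `1` -/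
  ones : Finset ℕ
  /-- the head of the index tape -/
  ihead : ℕ
  /-- the contents of the work tapes -/
  tape : Fin M.k → ℕ → M.Γ
  /-- the heads of the work tapes -/
  head : Fin M.k → ℕ

/-- The initial configuration: all tapes blank, all heads on cell `0`. -/
def ATM.init (M : ATM) : M.Cfg := ⟨M.start, ∅, 0, fun _ _ => M.blank, fun _ => 0⟩

/-- The number written in binary on the index tape. -/
def ATM.Cfg.addr {M : ATM} (c : M.Cfg) : ℕ := ∑ i ∈ c.ones, 2 ^ i

/-- The configuration after an action. -/
def ATM.Cfg.next {M : ATM} (c : M.Cfg)
    (a : M.Q × (Bool × Move) × (Fin M.k → M.Γ × Move)) : M.Cfg where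
  state := a.1
  ones := if a.2.1.1 then insert c.ihead c.ones else c.ones.erase c.ihead
  ihead := a.2.1.2.apply c.ihead
  tape := fun j => Function.update (c.tape j) (c.head j) (a.2.2 j).1
  head := fun j => (a.2.2 j).2.apply (c.head j)

/-- One step of the machine on input `x`. -/
def ATM.Step (M : ATM) (x : List Bool) (c c' : M.Cfg) : Prop :=
  ∃ a ∈ M.δ c.state x[c.addr]? (decide (c.ihead ∈ c.ones), decide (c.ihead = 0))
    (fun j => (c.tape j (c.head j), decide (c.head j = 0))), c' = c.next a

/-- Accepting configurations: an existential configuration accepts if some successor accepts, a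
universal one if all its successors accept (so a configuration without successors accepts exactly
if it is universal). -/
inductive ATM.Acc (M : ATM) (x : List Bool) : M.Cfg → Prop
  | ex (c c' : M.Cfg) : M.universal c.state = false → M.Step x c c' → ATM.Acc M x c' →
      ATM.Acc M x c
  | all (c : M.Cfg) : M.universal c.state = true → (∀ c', M.Step x c c' → ATM.Acc M x c') →
      ATM.Acc M x c

/-- Every computation path from the configuration has at most `t` steps. -/
def ATM.HaltsIn (M : ATM) (x : List Bool) : ℕ → M.Cfg → Prop
  | 0, c => ∀ c', ¬ M.Step x c c'
  | t + 1, c => ∀ c', M.Step x c c' → ATM.HaltsIn M x t c'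

/-- The class ALOGTIME: languages decided by an alternating machine in time `O(log n)`. -/
def ALogTime (L : Set (List Bool)) : Prop :=
  ∃ (M : ATM) (C : ℕ), ∀ x : List Bool,
    M.HaltsIn x (C * (Nat.log 2 x.length + 1)) M.init ∧ (x ∈ L ↔ M.Acc x M.init)

/-- The kinds of gates of an oracle circuit. -/
inductive Kind : Type
  | and : Kind
  | or : Kind
  | oracle : Kind

/-- The value of a gate, as a function of the list of the values on its input wires. An oracle
gate tells whether this list is a word of the oracle language `O`. -/
def Kind.Val (O : Set (List Bool)) : Kind → List Bool → Prop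
  | .and, l => ∀ b ∈ l, b = true
  | .or, l => ∃ b ∈ l, b = true
  | .oracle, l => l ∈ O

/-- A circuit with `n` inputs and gates `0, …, G - 1` of unbounded fan-in. A wire `(b, s)` carries
the value of the input or gate `s`, negated if `b` is true. Wires into a gate come from inputs and
from gates of lower level. -/
structure Circuit (n : ℕ) : Type where
  /-- the number of gates -/
  G : ℕ
  /-- the kind of a gate -/
  kind : Fin G → Kind
  /-- the ordered list of wires into a gate -/
  wires : Fin G → List (Bool × (Fin n ⊕ Fin G))
  /-- the level of a gate -/
  level : Fin G → ℕ
  /-- wires go from lower to higher levels -/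
  level_lt : ∀ (g : Fin G) (b : Bool) (g' : Fin G), (b, Sum.inr g') ∈ wires g → level g' < level g
  /-- the output wire -/
  out : Bool × (Fin n ⊕ Fin G)

/-- The value on a wire, given the values `x` of the inputs and `v` of the gates. -/
def Circuit.wire {n : ℕ} (C : Circuit n) (x : Fin n → Bool) (v : Fin C.G → Bool)
    (w : Bool × (Fin n ⊕ Fin C.G)) : Bool := xor w.1 (Sum.elim x v w.2)

/-- `v` gives the values of all gates on input `x`, with oracle `O` (there is exactly one such
`v`, as wires go from lower to higher levels). -/
def Circuit.IsRun {n : ℕ} (C : Circuit n) (O : Set (List Bool)) (x : Fin n → Bool)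
    (v : Fin C.G → Bool) : Prop :=
  ∀ g, v g = true ↔ (C.kind g).Val O ((C.wires g).map (C.wire x v))

/-- The circuit with oracle `O` outputs `true` on input `x`. -/
def Circuit.Accepts {n : ℕ} (C : Circuit n) (O : Set (List Bool)) (x : Fin n → Bool) : Prop :=
  ∃ v, C.IsRun O x v ∧ C.wire x v C.out = true

/-- The size: the number of gates plus the number of wires. -/
def Circuit.size {n : ℕ} (C : Circuit n) : ℕ := C.G + ∑ g, (C.wires g).length

/-- `K` is AC0-reducible to `O` in the most liberal sense: it is decided by a family (no
uniformity is required) of circuits of constant depth and polynomial size with negations and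
AND, OR and oracle gates for `O` of unbounded fan-in. -/
def AC0Reducible (K O : Set (List Bool)) : Prop :=
  ∃ h c : ℕ, ∀ n : ℕ, ∃ C : Circuit n, (∀ g, C.level g < h) ∧ C.size ≤ n ^ c + c ∧
    ∀ x : Fin n → Bool, C.Accepts O x ↔ List.ofFn x ∈ K

/-- Every language in ALOGTIME is AC0-reducible to `O`. -/
def ALogTimeHard (O : Set (List Bool)) : Prop := ∀ K, ALogTime K → AC0Reducible K O

/-- The word problem of a group `G` over an alphabet `A` whose letters are evaluated by `π`, with
each letter `a` written as the binary block `enc a` of length `k`. -/
def wordProblem {G A : Type} [Group G] (π : A → G) {k : ℕ} (enc : A → Fin k → Bool) :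
    Set (List Bool) :=
  {x | ∃ w : List A, x = w.flatMap (fun a => List.ofFn (enc a)) ∧ (w.map π).prod = 1}

end H345Z.WP
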