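import Pool.Agent.H345Z.WP.Triv
import Pool.Agent.H345Z.WP.Defs

/-!
# Oracle gates for the word problem are approximable
-/

namespace H345Z.WP

open Finset

variable {V : Type} [Fintype V] [DecidableEq V]

theorem decode {A : Type} {k : ℕ} (hk : 0 < k) {enc : A → Fin k → Bool}
    (henc : Function.Injective enc) {d e : ℕ} (N : ℕ) :
    ∀ Z : List ((V → Bool) → Bool), Z.length = N * k →
      (∀ f ∈ Z, ApxP d e (fun y => f y = true)) →
      ∃ D : List ((V → Bool) → Option A), D.length = N ∧
        (∀ g ∈ D, ∀ φ : Option A → F, Apx (k * d) (k * e) (fun y => φ (g y))) ∧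
        ∀ y (w : List A), Z.map (fun f => f y) = w.flatMap (fun a => List.ofFn (enc a)) ↔
          D.map (fun g => g y) = w.map some := by
  classical
  induction N with
  | zero =>
    intro Z hZ _
    have hZ0 : Z = [] := List.length_eq_zero_iff.1 (by simpa using hZ)
    subst hZ0
    refine ⟨[], rfl, by simp, ?_⟩
    intro y w
    cases w with
    | nil => simp
    | cons a w =>
      simp only [List.map_nil, List.flatMap_cons, List.map_cons]
      constructor
      · intro h
        have := congrArg List.length h
        simp at this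
        omega
      · intro h
        cases h
  | succ N ih =>
    intro Z hZ hA
    obtain ⟨g, Z₂, rfl⟩ : ∃ (g : Fin k → (V → Bool) → Bool) (Z₂ : List ((V → Bool) → Bool)),
        Z = List.ofFn g ++ Z₂ := by
      have hle : k ≤ Z.length := by rw [hZ]; nlinarith
      refine ⟨fun s => Z[s.1]'(lt_of_lt_of_le s.2 hle), Z.drop k, ?_⟩
      conv_lhs => rw [← List.take_append_drop k Z]
      congr 1
      apply List.ext_getElem
      · simp [hle]
      · intro i h1 h2
        simp
    have hZ₂ : Z₂.length = N * k := by
      simp only [List.length_append, List.length_ofFn] at hZ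
      nlinarith
    obtain ⟨D, hD, hDA, hDw⟩ := ih Z₂ hZ₂ (fun f hf => hA f (List.mem_append_right _ hf))
    set ψ : (Fin k → Bool) → Option A := fun u =>
      if h : ∃ a, enc a = u then some (Classical.choose h) else none with hψ
    have hψa : ∀ u a, ψ u = some a ↔ u = enc a := by
      intro u a
      simp only [hψ]
      constructor
      · intro h
        split_ifs at h with h1
        rw [← Classical.choose_spec h1, Option.some.inj h]
      · rintro rfl
        have h1 : ∃ a', enc a' = enc a := ⟨a, rfl⟩
        rw [dif_pos h1, henc (Classical.choose_spec h1)]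
    refine ⟨(fun y => ψ (fun s => g s y)) :: D, by simp [hD], ?_, ?_⟩
    · intro g' hg' φ
      rcases List.mem_cons.1 hg' with rfl | hg'
      · exact Apx.fn (fun s => hA (g s) (List.mem_append_left _ ((List.mem_ofFn' _ _).2 ⟨s, rfl⟩)))
          (fun u => φ (ψ u))
      · exact hDA g' hg' φ
    · intro y w
      cases w with
      | nil =>
        simp only [List.flatMap_nil, List.map_nil, List.map_cons]
        constructor
        · intro h
          have := congrArg List.length h
          simp at this
          omega
        · intro h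
          cases h
      | cons a w =>
        simp only [List.flatMap_cons, List.map_cons, List.map_append, List.cons.injEq, hψa,
          ← hDw y w, List.map_ofFn]
        constructor
        · intro h
          obtain ⟨h1, h2⟩ := List.append_inj h (by simp)
          exact ⟨List.ofFn_injective h1, h2⟩
        · rintro ⟨h1, h2⟩
          rw [h2]
          congr 1
          exact congrArg List.ofFn h1

theorem prod_pad (i c : ℕ) : ∀ u : List Letter, u.length ≤ c →
    (List.ofFn fun s : Fin c => act i (u.getD s (0, 0))).prod = (u.map (act i)).prod := by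
  induction c with
  | zero =>
    intro u hu
    have : u = [] := List.length_eq_zero_iff.1 (by omega)
    subst this
    simp
  | succ c ih =>
    intro u hu
    rw [List.ofFn_succ, List.prod_cons]
    cases u with
    | nil =>
      have := ih [] (by simp)
      simp only [List.getD_nil, act_zero, one_mul] at this ⊢
      exact this
    | cons a u =>
      have := ih u (by simpa using hu)
      simp only [Fin.val_zero, List.getD_cons_zero, Fin.val_succ, List.getD_cons_succ,
        List.map_cons, List.prod_cons]
      rw [this]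

theorem apx_list_all {β : Type} (t : ℕ) {d e : ℕ} (D : List β) {P : β → (V → Bool) → Prop}
    (h : ∀ g ∈ D, ApxP d e (P g)) :
    ApxP (2 * t * d) (D.length * e + eta V t) (fun y => ∀ g ∈ D, P g y) := by
  have h1 := ApxP.all (univ : Finset (Fin D.length)) t (P := fun l => P (D.get l))
    (fun l _ => h _ (List.get_mem _ _))
  rw [Finset.card_univ, Fintype.card_fin] at h1
  refine h1.congr fun y => ⟨fun h2 g hg => ?_, fun h2 l _ => h2 _ (List.get_mem _ _)⟩
  obtain ⟨l, rfl⟩ := List.get_of_mem hg
  exact h2 l (Finset.mem_univ _)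

theorem apx_oracle {A : Type} [Finite A] (π : A → GG 0) {k : ℕ} {enc : A → Fin k → Bool}
    (henc : Function.Injective enc) :
    ∃ c₀ : ℕ, ∀ (V : Type) [Fintype V] [DecidableEq V] (t R j S : ℕ), 1 ≤ t → S * c₀ ≤ R → S ≤ R →
      S * c₀ < sg j → rk (j + 1) < R →
      ∀ (Z : List ((V → Bool) → Bool)) (d e : ℕ), Z.length ≤ S →
        (∀ f ∈ Z, ApxP d e (fun y => f y = true)) →
        ApxP (d * ((k + 1) * 2 * (14 * t ^ 2) ^ (j + 2)))
          ((k + 1) * 3 * (5 * R ^ 4) ^ (j + 2) * (e + eta V t))
          (fun y => Z.map (fun f => f y) ∈ wordProblem π enc) := by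
  classical
  choose u hu1 hu2 using fun a : A => exists_word (π a).2
  have := Fintype.ofFinite A
  refine ⟨univ.sup fun a => (u a).length, ?_⟩
  set c₀ := univ.sup fun a => (u a).length with hc₀
  intro V _ _ t R j S ht hR1 hR2 hsg hrk Z d e hZ hA
  rcases Nat.eq_zero_or_pos k with rfl | hk
  · refine (ApxP.const _ _ (Z = [])).congr fun y => ?_
    simp only [wordProblem, Set.mem_ofPred_eq]
    constructor
    · rintro rfl
      exact ⟨[], by simp⟩
    · rintro ⟨w, hw, _⟩
      have h0 : w.flatMap (fun a => List.ofFn (enc a)) = [] := by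
        rw [List.flatMap_eq_nil_iff]
        intro a _
        simp
      rw [h0] at hw
      simpa using hw
  by_cases hN : ∃ N, Z.length = N * k
  swap
  · refine (ApxP.const _ _ False).congr fun y => ⟨False.elim, ?_⟩
    rintro ⟨w, hw, _⟩
    apply hN
    refine ⟨w.length, ?_⟩
    have := congrArg List.length hw
    simpa [List.length_flatMap] using this
  obtain ⟨N, hN⟩ := hN
  have hNS : N ≤ S := le_trans (by rw [hN]; exact Nat.le_mul_of_pos_right _ hk) hZ
  obtain ⟨D, hD, hDA, hDw⟩ := decode hk henc N Z hN hA
  set u' : Option A → List Letter := fun o => o.elim [] u with hu'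
  have hu'1 : ∀ o, ∀ s : ℕ, WF 0 ((u' o).getD s (0, 0)) := by
    intro o s
    have h0 : WF 0 ((0, 0) : Letter) := ⟨⟨0, fun _ _ => rfl⟩, fun _ _ => rfl⟩
    rw [List.getD_eq_getElem?_getD]
    cases h : (u' o)[s]? with
    | none => exact h0
    | some a =>
      have hm := List.mem_of_getElem? h
      cases o with
      | none => simp [hu'] at hm
      | some b => exact hu1 b a hm
  have hu'2 : ∀ o, (u' o).length ≤ c₀ := by
    intro o
    cases o with
    | none => simp [hu']
    | some b => exact Finset.le_sup (f := fun a => (u a).length) (Finset.mem_univ b)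
  set W : List ((V → Bool) → Letter) := D.flatMap
    (fun g => List.ofFn fun s : Fin c₀ => fun y => (u' (g y)).getD s (0, 0)) with hW
  have hWlen : W.length = N * c₀ := by
    rw [hW, List.length_flatMap]
    simp [hD]
  have hWmem : ∀ f ∈ W, ∃ g ∈ D, ∃ s : ℕ, f = fun y => (u' (g y)).getD s (0, 0) := by
    intro f hf
    obtain ⟨g, hg, hf⟩ := List.mem_flatMap.1 hf
    obtain ⟨s, rfl⟩ := (List.mem_ofFn' _ _).1 hf
    exact ⟨g, hg, s, rfl⟩
  have hWF : ∀ (l : Fin W.length) y, WF 0 (W.get l y) := by
    intro l y
    obtain ⟨g, _, s, hs⟩ := hWmem _ (List.get_mem W l)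
    rw [hs]
    exact hu'1 _ _
  have hNc : W.length ≤ S * c₀ := by rw [hWlen]; exact Nat.mul_le_mul_right _ hNS
  have h1 := apx_triv (V := V) (N := W.length) t R ht (hNc.trans hR1) (j + 1) 0 (k * d) (k * e)
    (fun l => W.get l) (by simpa using hrk) hWF
    (fun y => good_of_lt j 0 _ (fun l => hWF l y) (by simpa using lt_of_le_of_lt hNc hsg))
    (by
      intro l
      obtain ⟨g, hg, s, hs⟩ := hWmem _ (List.get_mem W l)
      simp only [hs]
      exact ⟨fun m => hDA g hg (fun o => ((u' o).getD s (0, 0)).1 m),
        hDA g hg (fun o => ((u' o).getD s (0, 0)).2)⟩)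
  have h2 := apx_list_all t D (d := k * d) (e := k * e) (P := fun g y => g y ≠ none) (by
    intro g hg
    refine (hDA g hg (fun o => if o ≠ none then 1 else 0)).congr fun y => ?_
    simp only [ind]
    congr)
  have h3 := h2.and h1
  have hev : ∀ y, ev 0 (fun l => W.get l y) =
      (D.map (fun g => ((u' (g y)).map (act 0)).prod)).prod := by
    intro y
    have e1 : ev 0 (fun l => W.get l y) = (W.map (fun f => act 0 (f y))).prod := by
      unfold ev
      conv_rhs => rw [← List.ofFn_get W, List.map_ofFn]
      rfl
    rw [e1, hW]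
    clear e1 h1 h2 h3 hWF hNc hWmem hWlen hW hDw hDA hD
    induction D with
    | nil => simp
    | cons g D ih =>
      rw [List.flatMap_cons, List.map_append, List.prod_append, ih, List.map_cons, List.prod_cons,
        List.map_ofFn, ← prod_pad 0 c₀ _ (hu'2 _)]
      rfl
  have hprod : ∀ w : List A, (((w.map π).prod : GG 0) : Equiv.Perm (List X)) =
      ((w.map some).map (fun o => ((u' o).map (act 0)).prod)).prod := by
    intro w
    induction w with
    | nil => simp
    | cons a w ih =>
      simp only [List.map_cons, List.prod_cons, Subgroup.coe_mul, ih]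
      congr 1
      exact (hu2 a).symm
  refine (h3.mono ?_ ?_).congr fun y => ?_
  · have e1 : 2 * t ≤ (14 * t ^ 2) ^ (j + 2) := by
      calc 2 * t ≤ 14 * t ^ 2 := by nlinarith
        _ ≤ (14 * t ^ 2) ^ (j + 2) := Nat.le_self_pow (by omega) _
    rw [show j + 1 + 1 = j + 2 by ring]
    set Y := (14 * t ^ 2) ^ (j + 2)
    have e2 : 2 * t * (k * d) ≤ Y * (k * d) := Nat.mul_le_mul_right _ e1
    nlinarith [Nat.zero_le (d * Y)]
  · have hR0 : 1 ≤ R := by omega
    have e1 : R ≤ (5 * R ^ 4) ^ (j + 2) := by
      calc R ≤ R ^ 4 := Nat.le_self_pow (by omega) _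
        _ ≤ 5 * R ^ 4 := by omega
        _ ≤ (5 * R ^ 4) ^ (j + 2) := Nat.le_self_pow (by omega) _
    rw [show j + 1 + 1 = j + 2 by ring, hD]
    set Y := (5 * R ^ 4) ^ (j + 2)
    have e2 : N * (k * e) ≤ Y * (k * e) := Nat.mul_le_mul_right _ (by omega)
    have e3 : eta V t ≤ Y * eta V t := Nat.le_mul_of_pos_left _ (by omega)
    nlinarith [Nat.zero_le (Y * e), Nat.zero_le (Y * k * e), Nat.zero_le (Y * k * eta V t)]
  · simp only [wordProblem, Set.mem_ofPred_eq, hDw, hev]
    constructor
    · rintro ⟨h4, h5⟩
      have h6 : ∃ w : List A, D.map (fun g => g y) = w.map some := by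
        clear h5 hev h3 h2 h1 hWF hNc hWmem hWlen hW hDw hDA hD
        induction D with
        | nil => exact ⟨[], rfl⟩
        | cons g D ih =>
          obtain ⟨w, hw⟩ := ih (fun g' hg' => h4 g' (List.mem_cons_of_mem _ hg'))
          obtain ⟨a, ha⟩ := Option.ne_none_iff_exists'.1 (h4 g List.mem_cons_self)
          exact ⟨a :: w, by simp [ha, hw]⟩
      obtain ⟨w, hw⟩ := h6
      refine ⟨w, hw, ?_⟩
      apply Subtype.ext
      rw [hprod, ← hw, List.map_map]
      exact h5
    · rintro ⟨w, hw, h5⟩
      constructor
      · intro g hg h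
        have : (none : Option A) ∈ w.map some := by
          rw [← hw, ← h]
          exact List.mem_map_of_mem (f := fun g => g y) hg
        simp at this
      · have h6 := hprod w
        rw [h5, ← hw, List.map_map] at h6
        exact h6.symm

end H345Z.WP
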