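import Pool.Agent.H345Z.WP.Apx

/-!
# A group acting on a rooted tree whose directed generator has far apart sections
-/

namespace H345Z.WP

open Finset

/-- the alphabet of the tree -/
abbrev X : Type := ℕ → F

/-- the block length at level `i` -/
def sg (i : ℕ) : ℕ := 2 ^ 2 ^ (i + 2)

/-- the number of rooted generators at level `i` -/
def rk (i : ℕ) : ℕ := 4 * 2 ^ (i + 2) * sg i

/-- the special points at level `i` -/
def sp (i o : ℕ) : X := fun m => if o.testBit (m / sg i) then 1 else 0

theorem sg_pos (i : ℕ) : 0 < sg i := by unfold sg; positivity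

theorem two_le_sg (i : ℕ) : 2 ≤ sg i := by
  unfold sg
  calc 2 = 2 ^ 1 := rfl
    _ ≤ 2 ^ 2 ^ (i + 2) := Nat.pow_le_pow_right (by norm_num) (Nat.one_le_two_pow)

theorem rk_pos (i : ℕ) : 0 < rk i := by
  unfold rk
  have := sg_pos i
  positivity

theorem aux_lt (s : ℕ) (hs : 4 ≤ s) : 8 * s < 2 ^ (2 * s) := by
  induction s, hs using Nat.le_induction with
  | base => norm_num
  | succ s hs ih =>
    rw [show 2 * (s + 1) = 2 * s + 2 by ring, pow_add]
    omega

theorem four_le (i : ℕ) : 4 ≤ 2 ^ (i + 2) := by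
  calc 4 = 2 ^ 2 := rfl
    _ ≤ 2 ^ (i + 2) := Nat.pow_le_pow_right (by norm_num) (by omega)

theorem rk_succ_lt (i : ℕ) : rk (i + 1) < 2 ^ (4 * 2 ^ (i + 2)) := by
  unfold rk sg
  have h := aux_lt _ (four_le i)
  set s := 2 ^ (i + 2) with hs
  have h1 : 2 ^ (i + 1 + 2) = 2 * s := by rw [hs]; ring
  rw [h1, show 4 * s = 2 * s + 2 * s by ring, pow_add]
  have : 0 < 2 ^ (2 * s) := by positivity
  nlinarith

theorem rk_lt (i : ℕ) : rk i < 2 ^ (2 ^ (i + 4)) := by
  unfold rk sg
  have h4 := four_le i
  have h := aux_lt _ h4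
  set s := 2 ^ (i + 2) with hs
  have h1 : 2 ^ (i + 4) = 2 * s + s + s := by rw [hs]; ring
  rw [h1, pow_add, pow_add]
  have h2 : 0 < 2 ^ s := by positivity
  have h3 : 4 * s * 2 ^ s < 2 ^ (2 * s) * 2 ^ s := Nat.mul_lt_mul_of_pos_right (by omega) h2
  exact h3.trans_le (Nat.le_mul_of_pos_right _ h2)

theorem rk_mono : Monotone rk := by
  intro i j hij
  unfold rk sg
  have h1 : 2 ^ (i + 2) ≤ 2 ^ (j + 2) := Nat.pow_le_pow_right (by norm_num) (by omega)
  exact Nat.mul_le_mul (by omega) (Nat.pow_le_pow_right (by norm_num) h1)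

theorem sp_zero (i : ℕ) : sp i 0 = 0 := by
  funext m; simp [sp]

theorem sp_supp {i o m : ℕ} (ho : o ≤ rk (i + 1)) (hm : rk i ≤ m) : sp i o m = 0 := by
  have h1 : o < 2 ^ (m / sg i) := by
    refine lt_of_le_of_lt ho ((rk_succ_lt i).trans_le (Nat.pow_le_pow_right (by norm_num) ?_))
    rw [Nat.le_div_iff_mul_le (sg_pos i)]
    exact hm
  simp [sp, Nat.testBit_lt_two_pow h1]

/-- different special points differ in at least `sg i` places -/
theorem sp_far {i o o' : ℕ} (A : Finset ℕ) (hA : A.card < sg i)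
    (h : ∀ m, m ∉ A → sp i o m = sp i o' m) : o = o' := by
  apply Nat.eq_of_testBit_eq
  intro q
  have hc : A.card < (Finset.Ico (q * sg i) (q * sg i + sg i)).card := by simpa using hA
  obtain ⟨m, hm, hmA⟩ := Finset.exists_mem_notMem_of_card_lt_card hc
  rw [Finset.mem_Ico] at hm
  have hq : m / sg i = q := by
    rw [Nat.div_eq_iff (sg_pos i)]
    omega
  have h1 := h m hmA
  simp only [sp, hq] at h1
  cases h2 : o.testBit q <;> cases h3 : o'.testBit q <;> simp_all

theorem sp_inj {i o o' : ℕ} (h : sp i o = sp i o') : o = o' :=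
  sp_far (i := i) ∅ (by simpa using sg_pos i) fun m _ => by rw [h]

open Classical in
/-- the rooted generator at level `i + 1` attached to the point `y` of level `i` -/
noncomputable def dec (i : ℕ) (y : X) : X :=
  fun m => if m < rk (i + 1) ∧ y = sp i (m + 1) then 1 else 0

theorem dec_zero (i : ℕ) : dec i 0 = 0 := by
  funext m
  unfold dec
  rw [if_neg]
  · rfl
  · rintro ⟨_, h⟩
    rw [← sp_zero i] at h
    exact absurd (sp_inj h) (by omega)

theorem dec_sp {i j : ℕ} (hj : j < rk (i + 1)) : dec i (sp i (j + 1)) = Pi.single j 1 := by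
  funext m
  unfold dec
  by_cases h : m = j
  · subst h
    rw [if_pos ⟨hj, rfl⟩, Pi.single_eq_same]
  · rw [if_neg, Pi.single_eq_of_ne h]
    rintro ⟨_, h2⟩
    have := sp_inj h2
    omega

theorem dec_of_not {i : ℕ} {y : X} (h : ∀ o ≤ rk (i + 1), y ≠ sp i o) : dec i y = 0 := by
  funext m
  unfold dec
  rw [if_neg]
  · rfl
  · rintro ⟨h1, h2⟩
    exact h (m + 1) h1 h2

/-- translation of the first letter -/
def trF (v : X) : List X → List X
  | [] => []
  | x :: xs => (x + v) :: xs

open Classical in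
/-- the directed generator, to the power `c` -/
noncomputable def bbF (c : F) : ℕ → List X → List X
  | _, [] => []
  | i, x :: xs => x :: (if x = 0 then bbF c (i + 1) xs else trF (c • dec i x) xs)

theorem trF_trF (v v' : X) (ξ : List X) : trF v (trF v' ξ) = trF (v + v') ξ := by
  cases ξ with
  | nil => rfl
  | cons x xs => simp only [trF]; rw [add_assoc, add_comm v' v]

theorem trF_zero (ξ : List X) : trF 0 ξ = ξ := by
  cases ξ <;> simp [trF]

theorem bbF_bbF (c c' : F) (ξ : List X) : ∀ i, bbF c i (bbF c' i ξ) = bbF (c + c') i ξ := by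
  induction ξ with
  | nil => intro i; rfl
  | cons x xs ih =>
    intro i
    simp only [bbF]
    by_cases h : x = 0
    · simp only [if_pos h, ih]
    · simp only [if_neg h, trF_trF, add_smul]

theorem bbF_zero (ξ : List X) : ∀ i, bbF 0 i ξ = ξ := by
  induction ξ with
  | nil => intro i; rfl
  | cons x xs ih =>
    intro i
    simp only [bbF, ih, zero_smul, trF_zero, ite_self]

/-- translation as a permutation -/
def tr (v : X) : Equiv.Perm (List X) where
  toFun := trF v
  invFun := trF (-v)
  left_inv ξ := by rw [trF_trF, neg_add_cancel, trF_zero]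
  right_inv ξ := by rw [trF_trF, add_neg_cancel, trF_zero]

/-- the directed generator as a permutation -/
noncomputable def bb (c : F) (i : ℕ) : Equiv.Perm (List X) where
  toFun := bbF c i
  invFun := bbF (-c) i
  left_inv ξ := by rw [bbF_bbF, neg_add_cancel, bbF_zero]
  right_inv ξ := by rw [bbF_bbF, add_neg_cancel, bbF_zero]

theorem tr_apply (v : X) (ξ : List X) : tr v ξ = trF v ξ := rfl
theorem bb_apply (c : F) (i : ℕ) (ξ : List X) : bb c i ξ = bbF c i ξ := rfl

theorem tr_mul (v v' : X) : tr v * tr v' = tr (v + v') :=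
  Equiv.ext fun ξ => trF_trF v v' ξ

theorem tr_zero : tr 0 = 1 := Equiv.ext trF_zero

theorem tr_inv (v : X) : (tr v)⁻¹ = tr (-v) := by
  rw [inv_eq_iff_mul_eq_one, tr_mul, add_neg_cancel, tr_zero]

theorem bb_mul (c c' : F) (i : ℕ) : bb c i * bb c' i = bb (c + c') i :=
  Equiv.ext fun ξ => bbF_bbF c c' ξ i

theorem bb_zero (i : ℕ) : bb 0 i = 1 := Equiv.ext fun ξ => bbF_zero ξ i

theorem bb_inv (c : F) (i : ℕ) : (bb c i)⁻¹ = bb (-c) i := by
  rw [inv_eq_iff_mul_eq_one, bb_mul, add_neg_cancel, bb_zero]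

theorem tr_eq_one {v : X} : tr v = 1 ↔ v = 0 := by
  refine ⟨fun h => ?_, fun h => by rw [h, tr_zero]⟩
  have h1 : tr v [0] = [0] := by rw [h]; rfl
  simpa [tr_apply, trF] using h1

theorem sp_succ_ne (i j : ℕ) : sp i (j + 1) ≠ 0 := by
  intro h
  rw [← sp_zero i] at h
  exact absurd (sp_inj h) (by omega)

theorem bb_eq_one {c : F} {i : ℕ} : bb c i = 1 ↔ c = 0 := by
  refine ⟨fun h => ?_, fun h => by rw [h, bb_zero]⟩
  have h1 : bb c i [sp i (0 + 1), 0] = [sp i (0 + 1), 0] := by rw [h]; rfl
  rw [bb_apply] at h1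
  simp only [bbF, if_neg (sp_succ_ne i 0), dec_sp (rk_pos (i + 1)), trF, zero_add,
    List.cons.injEq, true_and, and_true] at h1
  have h2 := congrFun h1 0
  simpa using h2

/-- a letter: a translation after a power of the directed generator -/
abbrev Letter : Type := X × F

/-- the permutation given by a letter at level `i` -/
noncomputable def act (i : ℕ) (a : Letter) : Equiv.Perm (List X) := tr a.1 * bb a.2 i

open Classical in
/-- the section of a letter at a point -/
noncomputable def secL (i : ℕ) (y : X) (a : Letter) : Letter :=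
  (a.2 • dec i y, if y = 0 then a.2 else 0)

theorem act_nil (i : ℕ) (a : Letter) : act i a [] = [] := rfl

theorem act_cons (i : ℕ) (a : Letter) (x : X) (xs : List X) :
    act i a (x :: xs) = (x + a.1) :: act (i + 1) (secL i x a) xs := by
  simp only [act, Equiv.Perm.mul_apply, tr_apply, bb_apply, secL]
  by_cases h : x = 0
  · subst h
    simp only [if_true, dec_zero, smul_zero, trF_zero]
    simp only [bbF, trF, if_true]
  · simp only [if_neg h, bbF_zero]
    simp only [bbF, trF, if_neg h]

theorem act_zero (i : ℕ) : act i (0, 0) = 1 := by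
  simp [act, tr_zero, bb_zero]

theorem secL_of_not {i : ℕ} {y : X} (h : ∀ o ≤ rk (i + 1), y ≠ sp i o) (a : Letter) :
    secL i y a = (0, 0) := by
  have h0 : y ≠ 0 := by rw [← sp_zero i]; exact h 0 (Nat.zero_le _)
  simp [secL, dec_of_not h, h0]

variable {N : ℕ}

/-- the permutation given by a word -/
noncomputable def ev (i : ℕ) (w : Fin N → Letter) : Equiv.Perm (List X) :=
  (List.ofFn fun l => act i (w l)).prod

/-- the total translation of the letters applied before the letter `l` -/
def suf (w : Fin N → Letter) (l : Fin N) : X := ∑ m ∈ univ.filter (fun m => l < m), (w m).1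

/-- the section of a word at a point -/
noncomputable def secW (i : ℕ) (x : X) (w : Fin N → Letter) : Fin N → Letter :=
  fun l => secL i (x + suf w l) (w l)

theorem ev_succ (i : ℕ) (w : Fin (N + 1) → Letter) :
    ev i w = act i (w 0) * ev i (fun l : Fin N => w l.succ) := by
  simp [ev, List.ofFn_succ]

theorem suf_zero (w : Fin (N + 1) → Letter) : suf w 0 = ∑ l : Fin N, (w l.succ).1 := by
  unfold suf
  rw [Finset.sum_filter, Fin.sum_univ_succ]
  simp

theorem suf_succ (w : Fin (N + 1) → Letter) (l : Fin N) :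
    suf w l.succ = suf (fun l : Fin N => w l.succ) l := by
  unfold suf
  rw [Finset.sum_filter, Finset.sum_filter, Fin.sum_univ_succ]
  simp

theorem ev_nil (i : ℕ) (w : Fin N → Letter) : ev i w [] = [] := by
  induction N with
  | zero => simp [ev]
  | succ N ih => rw [ev_succ, Equiv.Perm.mul_apply, ih, act_nil]

theorem ev_cons (i : ℕ) (w : Fin N → Letter) (x : X) (xs : List X) :
    ev i w (x :: xs) = (x + ∑ l, (w l).1) :: ev (i + 1) (secW i x w) xs := by
  induction N with
  | zero => simp [ev]
  | succ N ih =>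
    rw [ev_succ, Equiv.Perm.mul_apply, ih, act_cons, ev_succ, Equiv.Perm.mul_apply,
      Fin.sum_univ_succ]
    have h1 : (fun l : Fin N => secW i x w l.succ) = secW i x (fun l : Fin N => w l.succ) := by
      funext l
      simp only [secW, suf_succ]
    rw [h1]
    congr 1
    · abel
    · simp only [secW, suf_zero]

theorem ev_eq_one_iff (i : ℕ) (w : Fin N → Letter) :
    ev i w = 1 ↔ ∑ l, (w l).1 = 0 ∧ ∀ x, ev (i + 1) (secW i x w) = 1 := by
  constructor
  · intro h
    have h1 : ∀ x xs, (x + ∑ l, (w l).1) :: ev (i + 1) (secW i x w) xs = x :: xs := by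
      intro x xs
      rw [← ev_cons, h]; rfl
    refine ⟨?_, fun x => Equiv.ext fun xs => ?_⟩
    · have := (List.cons.inj (h1 0 [])).1
      simpa using this
    · exact (List.cons.inj (h1 x xs)).2
  · rintro ⟨h1, h2⟩
    refine Equiv.ext fun ξ => ?_
    cases ξ with
    | nil => exact ev_nil i w
    | cons x xs => rw [ev_cons, h1, h2, add_zero]; rfl

theorem ev_blank (i : ℕ) (w : Fin N → Letter) (h : ∀ l, w l = (0, 0)) : ev i w = 1 := by
  unfold ev
  refine List.prod_eq_one fun g hg => ?_
  obtain ⟨l, rfl⟩ := (List.mem_ofFn' _ _).1 hg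
  simp only [h l, act_zero]

theorem ev_eq_one_iff' (i : ℕ) (w : Fin N → Letter) :
    ev i w = 1 ↔ ∑ l, (w l).1 = 0 ∧ ∀ q ∈ (univ : Finset (Fin N)) ×ˢ range (rk (i + 1) + 1),
      ev (i + 1) (secW i (sp i q.2 - suf w q.1) w) = 1 := by
  rw [ev_eq_one_iff]
  refine and_congr_right fun _ => ⟨fun h q _ => h _, fun h x => ?_⟩
  by_cases hx : ∃ l, ∃ o ≤ rk (i + 1), x + suf w l = sp i o
  · obtain ⟨l, o, ho, hx⟩ := hx
    have h1 := h (l, o) (by simp; omega)
    have h2 : x = sp i o - suf w l := by rw [← hx]; abel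
    rw [h2]
    exact h1
  · push Not at hx
    exact ev_blank _ _ fun l => secL_of_not (hx l) _

/-- words in which only translations or only powers of the directed generator occur -/
def Pure (w : Fin N → Letter) : Prop := (∀ l, (w l).1 = 0) ∨ ∀ l, (w l).2 = 0

theorem ev_of_fst (i : ℕ) (w : Fin N → Letter) (h : ∀ l, (w l).1 = 0) :
    ev i w = bb (∑ l, (w l).2) i := by
  induction N with
  | zero => simp [ev, bb_zero]
  | succ N ih =>
    rw [ev_succ, ih _ (fun l => h _), act, h, tr_zero, one_mul, bb_mul, Fin.sum_univ_succ]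

theorem ev_of_snd (i : ℕ) (w : Fin N → Letter) (h : ∀ l, (w l).2 = 0) :
    ev i w = tr (∑ l, (w l).1) := by
  induction N with
  | zero => simp [ev, tr_zero]
  | succ N ih =>
    rw [ev_succ, ih _ (fun l => h _), act, h, bb_zero, mul_one, tr_mul, Fin.sum_univ_succ]

theorem Pure.ev_eq_one_iff {w : Fin N → Letter} (h : Pure w) (i : ℕ) :
    ev i w = 1 ↔ ∑ l, (w l).1 = 0 ∧ ∑ l, (w l).2 = 0 := by
  rcases h with h | h
  · rw [ev_of_fst i w h, bb_eq_one]
    simp [h]
  · rw [ev_of_snd i w h, tr_eq_one]
    simp [h]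

/-- the letters that are powers of generators at level `i` -/
def WF (i : ℕ) (a : Letter) : Prop :=
  (∃ j, ∀ m, m ≠ j → a.1 m = 0) ∧ ∀ m, rk i ≤ m → a.1 m = 0

theorem secL_WF (i : ℕ) (y : X) (a : Letter) : WF (i + 1) (secL i y a) := by
  constructor
  · by_cases h : ∃ j, y = sp i (j + 1)
    · obtain ⟨j, rfl⟩ := h
      refine ⟨j, fun m hm => ?_⟩
      simp only [secL, Pi.smul_apply, dec]
      rw [if_neg, smul_zero]
      rintro ⟨_, h2⟩
      have := sp_inj h2
      omega
    · push Not at h
      refine ⟨0, fun m _ => ?_⟩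
      simp only [secL, Pi.smul_apply, dec]
      rw [if_neg, smul_zero]
      rintro ⟨_, h2⟩
      exact h m h2
  · intro m hm
    simp only [secL, Pi.smul_apply, dec]
    rw [if_neg, smul_zero]
    rintro ⟨h1, _⟩
    omega

/-- all sections at depth `k` are pure -/
def Good : ℕ → ℕ → (Fin N → Letter) → Prop
  | 0, _, w => Pure w
  | k + 1, i, w => ∀ x, Good k (i + 1) (secW i x w)

theorem good_of_lt (k : ℕ) : ∀ (i : ℕ) (w : Fin N → Letter), (∀ l, WF i (w l)) →
    N < sg (i + k) → Good (k + 1) i w := by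
  induction k with
  | zero =>
    intro i w hw hN x
    by_contra hcon
    simp only [Good, Pure, not_or, not_forall] at hcon
    obtain ⟨⟨l, hl⟩, l', hl'⟩ := hcon
    have h1 : x + suf w l' = 0 := by
      by_contra h
      apply hl'
      simp [secW, secL, h]
    have h2 : ∃ m, x + suf w l = sp i (m + 1) := by
      by_contra h
      push Not at h
      apply hl
      funext m
      simp only [secW, secL, Pi.smul_apply, dec]
      rw [if_neg, smul_zero]
      · rfl
      · rintro ⟨_, h3⟩
        exact h m h3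
    obtain ⟨m, hm⟩ := h2
    choose j hj using fun l => (hw l).1
    have h3 : ∀ l'' t, t ∉ univ.image j → suf w l'' t = 0 := by
      intro l'' t ht
      unfold suf
      rw [Finset.sum_apply]
      refine Finset.sum_eq_zero fun u _ => hj u t ?_
      rintro rfl
      exact ht (Finset.mem_image_of_mem _ (Finset.mem_univ u))
    have h4 := sp_far (i := i) (o := m + 1) (o' := 0) (univ.image j)
      (lt_of_le_of_lt (Finset.card_image_le.trans (by simp)) hN) (by
        intro t ht
        have e1 := congrFun h1 t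
        have e2 := congrFun hm t
        rw [Pi.add_apply, h3 _ t ht] at e1 e2
        rw [sp_zero, ← e2, e1])
    omega
  | succ k ih =>
    intro i w _ hN x
    refine ih (i + 1) _ (fun l => secL_WF _ _ _) ?_
    rwa [show i + 1 + k = i + (k + 1) by ring]

end H345Z.WP
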