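import Pool.Agent.H345Z.WP.Gate

/-!
# The parity language does not reduce to the word problem
-/

namespace H345Z.WP

open Finset

/-- the words with an odd number of ones -/
def parity : Set (List Bool) := {x | Odd (x.count true)}

theorem Circuit.map_congr {n : ℕ} (C : Circuit n) (x : Fin n → Bool) (v v' : Fin C.G → Bool)
    (g : Fin C.G) (h : ∀ g', C.level g' < C.level g → v g' = v' g') :
    (C.wires g).map (C.wire x v) = (C.wires g).map (C.wire x v') := by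
  refine List.map_congr_left ?_
  rintro ⟨b, s | g'⟩ hw
  · rfl
  · simp only [Circuit.wire, Sum.elim_inr]
    rw [h g' (C.level_lt g b g' hw)]

theorem Circuit.exists_run {n : ℕ} (C : Circuit n) (O : Set (List Bool)) (x : Fin n → Bool) :
    ∃ v, C.IsRun O x v := by
  classical
  have key : ∀ L : ℕ, ∃ v : Fin C.G → Bool, ∀ g, C.level g < L →
      (v g = true ↔ (C.kind g).Val O ((C.wires g).map (C.wire x v))) := by
    intro L
    induction L with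
    | zero => exact ⟨fun _ => false, fun g hg => absurd hg (Nat.not_lt_zero _)⟩
    | succ L ih =>
      obtain ⟨v, hv⟩ := ih
      refine ⟨fun g => if C.level g < L then v g else
        decide ((C.kind g).Val O ((C.wires g).map (C.wire x v))), ?_⟩
      intro g hg
      rw [C.map_congr x _ v g (fun g' hg' => by simp only [if_pos (show C.level g' < L by omega)])]
      by_cases h1 : C.level g < L
      · simp only [if_pos h1]
        exact hv g h1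
      · simp only [if_neg h1, decide_eq_true_eq]
  obtain ⟨v, hv⟩ := key ((Finset.univ.sup C.level) + 1)
  exact ⟨v, fun g => hv g (Nat.lt_succ_of_le (Finset.le_sup (Finset.mem_univ g)))⟩

theorem Circuit.run_unique {n : ℕ} (C : Circuit n) (O : Set (List Bool)) (x : Fin n → Bool)
    {v v' : Fin C.G → Bool} (hv : C.IsRun O x v) (hv' : C.IsRun O x v') : v = v' := by
  have h2 : ∀ L : ℕ, ∀ g, C.level g < L → v g = v' g := by
    intro L
    induction L with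
    | zero => intro g hg; exact absurd hg (Nat.not_lt_zero _)
    | succ L ih =>
      intro g hg
      rw [Bool.eq_iff_iff, hv g, hv' g, C.map_congr x v v' g (fun g' hg' => ih g' (by omega))]
  funext g
  exact h2 _ g (Nat.lt_succ_self _)

variable {V : Type} [Fintype V] [DecidableEq V]

omit [Fintype V] in
theorem apx_xor {d e : ℕ} (b : Bool) {f : (V → Bool) → Bool} (h : ApxP d e (fun y => f y = true)) :
    ApxP d e (fun y => xor b (f y) = true) := by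
  cases b
  · exact h.congr fun y => by simp
  · exact h.not.congr fun y => by simp

theorem apx_circuit {n : ℕ} (C : Circuit n) (O : Set (List Bool)) (ι : Fin n → V)
    (S Aa B η h : ℕ) (hA : 1 ≤ Aa) (hB : 1 ≤ B) (hS : C.size ≤ S) (hh : ∀ g, C.level g < h)
    (hgate : ∀ (κ : Kind) (Z : List ((V → Bool) → Bool)) (d e : ℕ), Z.length ≤ S →
      (∀ f ∈ Z, ApxP d e (fun y => f y = true)) →
      ApxP (d * Aa) (B * (e + η)) (fun y => κ.Val O (Z.map fun f => f y))) :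
    ApxP (Aa ^ h) ((2 * B) ^ h * η) (fun y : V → Bool => C.Accepts O (fun i => y (ι i))) := by
  choose v hv using fun y : V → Bool => C.exists_run O (fun i => y (ι i))
  have hwire : ∀ (L : ℕ) (w : Bool × (Fin n ⊕ Fin C.G)),
      (∀ g, w.2 = Sum.inr g → ApxP (Aa ^ L) ((2 * B) ^ L * η) (fun y => v y g = true)) →
      ApxP (Aa ^ L) ((2 * B) ^ L * η) (fun y => C.wire (fun i => y (ι i)) (v y) w = true) := by
    rintro L ⟨b, i | g⟩ hw
    · exact apx_xor b ((ApxP.input (ι i)).mono (Nat.one_le_pow _ _ hA) (Nat.zero_le _))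
    · exact apx_xor b (hw g rfl)
  have key : ∀ L g, C.level g < L → ApxP (Aa ^ L) ((2 * B) ^ L * η) (fun y => v y g = true) := by
    intro L
    induction L with
    | zero => intro g hg; exact absurd hg (Nat.not_lt_zero _)
    | succ L ih =>
      intro g hg
      have h1 := hgate (C.kind g)
        ((C.wires g).map fun w y => C.wire (fun i => y (ι i)) (v y) w) (Aa ^ L) ((2 * B) ^ L * η)
        (by
          rw [List.length_map]
          refine le_trans ?_ hS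
          unfold Circuit.size
          have := Finset.single_le_sum (f := fun g => (C.wires g).length)
            (fun _ _ => Nat.zero_le _) (Finset.mem_univ g)
          omega)
        (by
          intro f hf
          obtain ⟨w, hw, rfl⟩ := List.mem_map.1 hf
          refine hwire L w fun g' hg' => ih g' ?_
          have := C.level_lt g w.1 g' (by rw [← hg']; exact hw)
          omega)
      refine (h1.mono (by rw [pow_succ]) ?_).congr fun y => ?_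
      · have e1 : η ≤ (2 * B) ^ L * η := Nat.le_mul_of_pos_left _ (by positivity)
        rw [pow_succ]
        nlinarith
      · rw [hv y g, List.map_map]
        rfl
  refine (hwire h C.out fun g _ => key h g (hh g)).congr fun y => ⟨fun h1 => ⟨v y, hv y, h1⟩, ?_⟩
  rintro ⟨v', hv', h1⟩
  rwa [C.run_unique O _ (hv y) hv']

theorem exists_T (a : ℕ) : ∃ T, 1 ≤ T ∧ a * (T + a) ^ 2 ≤ 2 ^ T := by
  refine ⟨3 * (a + 4), by omega, ?_⟩
  have h1 : a + 1 ≤ 2 ^ a := Nat.lt_two_pow_self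
  have h2 : 3 * (a + 4) + a ≤ 2 ^ (a + 4) := by rw [pow_add]; omega
  calc a * (3 * (a + 4) + a) ^ 2 ≤ (3 * (a + 4) + a) * (3 * (a + 4) + a) ^ 2 :=
        Nat.mul_le_mul_right _ (by omega)
    _ = (3 * (a + 4) + a) ^ 3 := by ring
    _ ≤ (2 ^ (a + 4)) ^ 3 := Nat.pow_le_pow_left h2 _
    _ = 2 ^ (3 * (a + 4)) := by rw [← pow_mul, mul_comm]

theorem le_two_pow' (a : ℕ) : a ≤ 2 ^ a := Nat.lt_two_pow_self.le

theorem num1 (T c c₀ : ℕ) :
    ((2 ^ 2 ^ T) ^ c + c) * (c₀ + 1) < sg (T + (c + (c + 1) * (c₀ + 1))) := by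
  obtain ⟨P, hP⟩ : ∃ P, P = 2 ^ T := ⟨_, rfl⟩
  obtain ⟨q, hq⟩ : ∃ q, q = (c + 1) * (c₀ + 1) := ⟨_, rfl⟩
  have e4 : 1 ≤ P := by rw [hP]; exact Nat.one_le_two_pow
  have e1 : (2 ^ P) ^ c + c ≤ 2 ^ (P * c) * (c + 1) := by
    rw [← pow_mul, mul_add, mul_one, add_comm]
    exact Nat.add_le_add_right (Nat.le_mul_of_pos_left _ (by positivity)) _
  have e2 : q < 2 ^ q := Nat.lt_two_pow_self
  have e3 : P * c + q ≤ 2 ^ (T + (c + q) + 2) := by
    calc P * c + q ≤ P * (c + q) := by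
          rw [mul_add]; exact Nat.add_le_add_left (Nat.le_mul_of_pos_left _ e4) _
      _ ≤ 2 ^ T * 2 ^ (c + q) := by rw [hP]; exact Nat.mul_le_mul_left _ (le_two_pow' _)
      _ = 2 ^ (T + (c + q)) := by rw [← pow_add]
      _ ≤ 2 ^ (T + (c + q) + 2) := Nat.pow_le_pow_right (by norm_num) (by omega)
  rw [← hP, ← hq]
  calc ((2 ^ P) ^ c + c) * (c₀ + 1) ≤ 2 ^ (P * c) * (c + 1) * (c₀ + 1) :=
        Nat.mul_le_mul_right _ e1
    _ = 2 ^ (P * c) * q := by rw [hq, mul_assoc]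
    _ < 2 ^ (P * c) * 2 ^ q := Nat.mul_lt_mul_of_pos_left e2 (by positivity)
    _ = 2 ^ (P * c + q) := by rw [← pow_add]
    _ ≤ sg (T + (c + q)) := Nat.pow_le_pow_right (by norm_num) e3

theorem num2 (h k j : ℕ) :
    4 * (2 * ((k + 1) * 3 * (5 * (2 ^ 2 ^ (j + 5)) ^ 4) ^ (j + 2))) ^ h ≤
      3 ^ (2 + h * (k + 3 + (j + 2) * (3 + 2 ^ (j + 7)))) := by
  have e2 : 5 * (2 ^ 2 ^ (j + 5)) ^ 4 ≤ 2 ^ (3 + 2 ^ (j + 7)) := by
    rw [← pow_mul, pow_add 2 3, show 2 ^ (j + 5) * 4 = 2 ^ (j + 7) by ring]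
    exact Nat.mul_le_mul_right _ (by norm_num)
  obtain ⟨Y, hY⟩ : ∃ Y, Y = 5 * (2 ^ 2 ^ (j + 5)) ^ 4 := ⟨_, rfl⟩
  obtain ⟨z, hz⟩ : ∃ z, z = 3 + 2 ^ (j + 7) := ⟨_, rfl⟩
  rw [← hY, ← hz] at e2 ⊢
  obtain ⟨β, hβ⟩ : ∃ β, β = k + 3 + (j + 2) * z := ⟨_, rfl⟩
  rw [← hβ]
  have e3 : k + 1 ≤ 2 ^ k := Nat.lt_two_pow_self
  have e1 : 2 * ((k + 1) * 3 * Y ^ (j + 2)) ≤ 2 ^ β := by
    calc 2 * ((k + 1) * 3 * Y ^ (j + 2)) = (k + 1) * 6 * Y ^ (j + 2) := by ring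
      _ ≤ 2 ^ k * 2 ^ 3 * (2 ^ z) ^ (j + 2) :=
        Nat.mul_le_mul (Nat.mul_le_mul e3 (by norm_num)) (Nat.pow_le_pow_left e2 _)
      _ = 2 ^ β := by rw [← pow_mul, ← pow_add, ← pow_add, hβ, mul_comm (j + 2)]
  calc 4 * (2 * ((k + 1) * 3 * Y ^ (j + 2))) ^ h ≤ 4 * (2 ^ β) ^ h :=
        Nat.mul_le_mul_left _ (Nat.pow_le_pow_left e1 _)
    _ = 2 ^ (2 + h * β) := by rw [← pow_mul, pow_add, mul_comm β]; norm_num
    _ ≤ 3 ^ (2 + h * β) := Nat.pow_le_pow_left (by norm_num) _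

theorem num3 (h k j : ℕ) :
    2 + h * (k + 3 + (j + 2) * (3 + 2 ^ (j + 7))) ≤ 2 ^ (2 * j + h + k + 16) := by
  have e1 : (j + 2) * (3 + 2 ^ (j + 7)) ≤ 2 ^ (2 * j + 10) := by
    have e2 : 3 + 2 ^ (j + 7) ≤ 2 ^ (j + 8) := by
      have := le_two_pow' (j + 7)
      rw [pow_succ 2 (j + 7)]
      omega
    calc (j + 2) * (3 + 2 ^ (j + 7)) ≤ 2 ^ (j + 2) * 2 ^ (j + 8) :=
          Nat.mul_le_mul (le_two_pow' _) e2
      _ = 2 ^ (2 * j + 10) := by rw [← pow_add]; congr 1; ring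
  have e3 : 1 ≤ 2 ^ (2 * j + 10) := Nat.one_le_two_pow
  have e0 : 2 ^ (2 * j + h + k + 16) = 2 ^ (h + 2) * (2 ^ (k + 4) * 2 ^ (2 * j + 10)) := by
    rw [← pow_add, ← pow_add]; congr 1; omega
  rw [e0]
  obtain ⟨Y, hY⟩ : ∃ Y, Y = 2 ^ (2 * j + 10) := ⟨_, rfl⟩
  obtain ⟨z, hz⟩ : ∃ z, z = (j + 2) * (3 + 2 ^ (j + 7)) := ⟨_, rfl⟩
  rw [← hY, ← hz] at e1 ⊢
  rw [← hY] at e3
  have e4 : k + 3 + z ≤ (k + 4) * Y := by nlinarith
  have e5 : 1 ≤ (k + 4) * Y := by nlinarith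
  calc 2 + h * (k + 3 + z) ≤ (h + 2) * ((k + 4) * Y) := by
        have := Nat.mul_le_mul_left h e4
        nlinarith
    _ ≤ 2 ^ (h + 2) * (2 ^ (k + 4) * Y) :=
        Nat.mul_le_mul (le_two_pow' _) (Nat.mul_le_mul_right _ (le_two_pow' _))

theorem num4 (h k m T t : ℕ) (h7 : t ≤ 2 ^ (2 * (T + m) + h + k + 16))
    (hT : (12 * h + 6 + m + h + k + 18) * (T + (12 * h + 6 + m + h + k + 18)) ^ 2 ≤ 2 ^ T) :
    64 * (((k + 1) * 2 * (14 * t ^ 2) ^ (T + m + 2)) ^ h) ^ 2 ≤ 2 ^ 2 ^ T := by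
  obtain ⟨τ, hτ⟩ : ∃ τ, τ = 2 * (T + m) + h + k + 16 := ⟨_, rfl⟩
  obtain ⟨a, ha⟩ : ∃ a, a = 12 * h + 6 + m + h + k + 18 := ⟨_, rfl⟩
  obtain ⟨P, hP⟩ : ∃ P, P = 2 ^ T := ⟨_, rfl⟩
  rw [← hτ] at h7
  rw [← ha, ← hP] at hT
  rw [← hP]
  obtain ⟨U, hU⟩ : ∃ U, U = T + a := ⟨_, rfl⟩
  rw [← hU] at hT
  have h8 : (k + 1) * 2 * (14 * t ^ 2) ^ (T + m + 2) ≤
      2 ^ (k + 2 + (4 + 2 * τ) * (T + m + 2)) := by
    have e1 : 14 * t ^ 2 ≤ 2 ^ (4 + 2 * τ) := by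
      rw [pow_add, mul_comm 2 τ, pow_mul]
      exact Nat.mul_le_mul (by norm_num) (Nat.pow_le_pow_left h7 _)
    calc _ ≤ 2 ^ (k + 1) * 2 * (2 ^ (4 + 2 * τ)) ^ (T + m + 2) :=
          Nat.mul_le_mul (Nat.mul_le_mul_right _ (le_two_pow' _)) (Nat.pow_le_pow_left e1 _)
      _ = _ := by rw [← pow_mul, ← pow_succ, ← pow_add]
  have e1 : k + 2 + (4 + 2 * τ) * (T + m + 2) ≤ 6 * U ^ 2 := by
    have e2 : (4 + 2 * τ) * (T + m + 2) ≤ (5 * U) * U := Nat.mul_le_mul (by omega) (by omega)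
    have e3 : k + 2 ≤ U * U := le_trans (by omega) (Nat.le_mul_self U)
    have e4 : 6 * U ^ 2 = U * U + 5 * U * U := by ring
    omega
  have e4 : 6 + 6 * U ^ 2 * h * 2 ≤ P := by
    refine le_trans ?_ hT
    have e5 : 1 ≤ U ^ 2 := Nat.one_le_pow _ _ (by omega)
    have e6 : (12 * h + 6) * U ^ 2 ≤ a * U ^ 2 := Nat.mul_le_mul_right _ (by omega)
    have e7 : (12 * h + 6) * U ^ 2 = 6 * U ^ 2 * h * 2 + 6 * U ^ 2 := by ring
    omega
  calc _ ≤ 2 ^ 6 * ((2 ^ (6 * U ^ 2)) ^ h) ^ 2 :=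
        Nat.mul_le_mul (by norm_num) (Nat.pow_le_pow_left (Nat.pow_le_pow_left
          (h8.trans (Nat.pow_le_pow_right (by norm_num) e1)) _) _)
    _ = 2 ^ (6 + 6 * U ^ 2 * h * 2) := by rw [← pow_mul, ← pow_mul, ← pow_add, mul_assoc _ h 2]
    _ ≤ 2 ^ P := Nat.pow_le_pow_right (by norm_num) e4

theorem params (h c k c₀ : ℕ) : ∃ r t R j : ℕ, 1 ≤ t ∧ ((2 * r) ^ c + c) * (c₀ + 1) < sg j ∧
    sg j ≤ R ∧ rk (j + 1) < R ∧ 4 * (2 * ((k + 1) * 3 * (5 * R ^ 4) ^ (j + 2))) ^ h ≤ 3 ^ t ∧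
    64 * (((k + 1) * 2 * (14 * t ^ 2) ^ (j + 2)) ^ h) ^ 2 ≤ 2 * r := by
  obtain ⟨m, hm⟩ : ∃ m, m = c + (c + 1) * (c₀ + 1) := ⟨_, rfl⟩
  obtain ⟨T, _, hT⟩ := exists_T (12 * h + 6 + m + h + k + 18)
  have hn : 2 * 2 ^ (2 ^ T - 1) = 2 ^ 2 ^ T := by
    rw [← pow_succ']
    congr 1
    have := Nat.one_le_two_pow (n := T)
    omega
  refine ⟨2 ^ (2 ^ T - 1), 2 + h * (k + 3 + (T + m + 2) * (3 + 2 ^ (T + m + 7))),
    2 ^ 2 ^ (T + m + 5), T + m, by omega, ?_, ?_, rk_lt (T + m + 1), num2 h k (T + m), ?_⟩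
  · rw [hn, hm]
    exact num1 T c c₀
  · exact Nat.pow_le_pow_right (by norm_num) (Nat.pow_le_pow_right (by norm_num) (by omega))
  · rw [hn]
    exact num4 h k m T _ (num3 h k (T + m)) hT

theorem num5 (r D E : ℕ) (hD1 : 1 ≤ D) (h4 : 4 * E ≤ 2 ^ (2 * r))
    (h2 : 2 ^ (2 * r) ≤ 2 * E + 2 * ((D + 1) * Nat.centralBinom r)) : 2 * r + 1 ≤ 64 * D ^ 2 := by
  have h5 : 2 ^ (2 * r) ≤ 8 * D * Nat.centralBinom r := by
    have e1 : (D + 1) * Nat.centralBinom r ≤ (2 * D) * Nat.centralBinom r :=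
      Nat.mul_le_mul_right _ (by omega)
    have e2 : 8 * D * Nat.centralBinom r = 4 * ((2 * D) * Nat.centralBinom r) := by ring
    omega
  have e1 := cb_bound r
  have e2 : (16 : ℕ) ^ r = (2 ^ (2 * r)) ^ 2 := by
    rw [← pow_mul, show 2 * r * 2 = 4 * r by ring, pow_mul]; norm_num
  have e3 : (2 ^ (2 * r)) ^ 2 ≤ (8 * D * Nat.centralBinom r) ^ 2 := Nat.pow_le_pow_left h5 _
  have e4 : Nat.centralBinom r ^ 2 * (2 * r + 1) ≤ Nat.centralBinom r ^ 2 * (64 * D ^ 2) := by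
    calc _ ≤ _ := e1
      _ ≤ _ := e2.le.trans e3
      _ = _ := by ring
  exact Nat.le_of_mul_le_mul_left e4 (pow_pos (Nat.centralBinom_pos r) _)

theorem parity_not_reducible {A : Type} [Finite A] (π : A → GG 0) {k : ℕ}
    {enc : A → Fin k → Bool} (henc : Function.Injective enc) :
    ¬ AC0Reducible parity (wordProblem π enc) := by
  rintro ⟨h, c, hC⟩
  obtain ⟨c₀, hc₀⟩ := apx_oracle π henc
  obtain ⟨r, t, R, j, ht1, hS1, hsgR, hrk, h3, h9⟩ := params h c k c₀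
  obtain ⟨C, hC1, hC2, hC3⟩ := hC (2 * r)
  obtain ⟨S, hS⟩ : ∃ S, S = (2 * r) ^ c + c := ⟨_, rfl⟩
  rw [← hS] at hS1 hC2
  have hS2 : S * c₀ < sg j := lt_of_le_of_lt (Nat.mul_le_mul_left _ (by omega)) hS1
  have hS3 : S ≤ R := by
    have : S ≤ S * (c₀ + 1) := Nat.le_mul_of_pos_right _ (by omega)
    omega
  have hc₁ := hc₀ (Unit × Fin (2 * r)) t R j S ht1 (by omega) hS3 hS2 hrk
  have hR1 : 1 ≤ R := by omega
  have hAa1 : 2 * t ≤ (k + 1) * 2 * (14 * t ^ 2) ^ (j + 2) := by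
    have e1 : 2 * t ≤ (14 * t ^ 2) ^ (j + 2) := by
      calc 2 * t ≤ 14 * t ^ 2 := by
            have : t ≤ t ^ 2 := Nat.le_self_pow (by omega) _
            omega
        _ ≤ (14 * t ^ 2) ^ (j + 2) := Nat.le_self_pow (by omega) _
    exact e1.trans (Nat.le_mul_of_pos_left _ (by positivity))
  have hB1 : R ≤ (k + 1) * 3 * (5 * R ^ 4) ^ (j + 2) := by
    have e1 : R ≤ (5 * R ^ 4) ^ (j + 2) := by
      calc R ≤ R ^ 4 := Nat.le_self_pow (by omega) _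
        _ ≤ 5 * R ^ 4 := by omega
        _ ≤ (5 * R ^ 4) ^ (j + 2) := Nat.le_self_pow (by omega) _
    exact e1.trans (Nat.le_mul_of_pos_left _ (by positivity))
  obtain ⟨Aa, hAa⟩ : ∃ Aa, Aa = (k + 1) * 2 * (14 * t ^ 2) ^ (j + 2) := ⟨_, rfl⟩
  obtain ⟨B, hB⟩ : ∃ B, B = (k + 1) * 3 * (5 * R ^ 4) ^ (j + 2) := ⟨_, rfl⟩
  rw [← hAa] at hAa1 h9 hc₁
  rw [← hB] at hB1 h3 hc₁
  have h1 := apx_circuit (V := Unit × Fin (2 * r)) C (wordProblem π enc) (fun i => ((), i))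
    S Aa B (eta (Unit × Fin (2 * r)) t) h (by omega) (by omega) hC2 hC1 (by
      intro κ Z d e hZ hA
      have hZe : Z.length * e + eta (Unit × Fin (2 * r)) t ≤
          B * (e + eta (Unit × Fin (2 * r)) t) := by
        have e1 : Z.length * e ≤ B * e := Nat.mul_le_mul_right _ (by omega)
        have e2 : eta (Unit × Fin (2 * r)) t ≤ B * eta (Unit × Fin (2 * r)) t :=
          Nat.le_mul_of_pos_left _ (by omega)
        rw [mul_add]
        omega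
      have hd : 2 * t * d ≤ d * Aa := by rw [mul_comm]; exact Nat.mul_le_mul_left _ hAa1
      cases κ with
      | and =>
        refine ((apx_list_all t Z (P := fun f y => f y = true) hA).mono hd hZe).congr fun y => ?_
        simp [Kind.Val]
      | or =>
        refine ((apx_list_all t Z (P := fun f y => ¬ f y = true)
          (fun f hf => (hA f hf).not)).not.mono hd hZe).congr fun y => ?_
        simp [Kind.Val]
      | oracle => exact hc₁ Z d e hZ hA)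
  have h2 := parity_bound r _ _ (h1.congr fun y => hC3 _)
  have h4 : 4 * ((2 * B) ^ h * eta (Unit × Fin (2 * r)) t) ≤ 2 ^ (2 * r) := by
    have e1 : 3 ^ t * eta (Unit × Fin (2 * r)) t ≤ 2 ^ (2 * r) := by
      unfold eta
      simpa using Nat.mul_div_le (2 ^ (2 * r)) (3 ^ t)
    rw [← mul_assoc]
    exact (Nat.mul_le_mul_right _ h3).trans e1
  have h6 := num5 r _ _ (Nat.one_le_pow _ _ (by omega)) h4 h2
  omega

end H345Z.WP
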