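import Pool.Agent.H345Z.WP.Lower

/-!
# The parity language is in ALOGTIME
-/

namespace H345Z.WP

theorem ATM.acc_ex {M : ATM} {x : List Bool} {c : M.Cfg} (h : M.universal c.state = false) :
    M.Acc x c ↔ ∃ c', M.Step x c c' ∧ M.Acc x c' := by
  constructor
  · intro ha
    cases ha with
    | ex _ c' _ h1 h2 => exact ⟨c', h1, h2⟩
    | all _ h1 _ => rw [h] at h1; cases h1
  · rintro ⟨c', h1, h2⟩
    exact ATM.Acc.ex c c' h h1 h2

theorem ATM.acc_all {M : ATM} {x : List Bool} {c : M.Cfg} (h : M.universal c.state = true) :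
    M.Acc x c ↔ ∀ c', M.Step x c c' → M.Acc x c' := by
  constructor
  · intro ha
    cases ha with
    | ex _ c' h1 _ _ => rw [h] at h1; cases h1
    | all _ _ h2 => exact h2
  · exact ATM.Acc.all c h

theorem ATM.HaltsIn.succ {M : ATM} {x : List Bool} {t : ℕ} :
    ∀ {c : M.Cfg}, M.HaltsIn x t c → M.HaltsIn x (t + 1) c := by
  induction t with
  | zero => intro c h c' h1; exact absurd h1 (h c')
  | succ t ih => intro c h c' h1; exact ih (h c' h1)

theorem ATM.HaltsIn.mono {M : ATM} {x : List Bool} {t t' : ℕ} {c : M.Cfg} (h : M.HaltsIn x t c)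
    (htt : t ≤ t') : M.HaltsIn x t' c := by
  induction t', htt using Nat.le_induction with
  | base => exact h
  | succ t' _ ih => exact ih.succ

/-- the states of the machine for parity -/
inductive St : Type
  | put : St
  | chk : St
  | ex (c : Bool) : St
  | un (c₀ c₁ : Bool) : St
  | acc : St
  deriving DecidableEq, Fintype

/-- the transition table, without work tapes -/
def tb : St → Option Bool → Bool × Bool → List (St × Bool × Move)
  | .put, _, _ => [(.chk, true, .stay)]
  | .chk, none, _ => [(.ex true, false, .stay)]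
  | .chk, some _, _ => [(.put, false, .right)]
  | .ex c, i, (b, true) => if i.getD false = c then [(.acc, b, .stay)] else []
  | .ex c, _, (b, false) => [(.un false c, b, .left), (.un true (!c), b, .left)]
  | .un c₀ c₁, _, _ => [(.ex c₀, false, .stay), (.ex c₁, true, .stay)]
  | .acc, _, _ => []

/-- the machine for parity -/
def PM : ATM where
  Q := St
  finQ := inferInstance
  Γ := Unit
  finΓ := inferInstance
  blank := ()
  k := 0
  start := .put
  universal := fun q => match q with
    | .un _ _ => true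
    | .acc => true
    | _ => false
  δ := fun q i b _ => {a | (a.1, a.2.1) ∈ tb q i b}

/-- a configuration of the machine -/
def cf (q : St) (s : Finset ℕ) (j : ℕ) : PM.Cfg := ⟨q, s, j, fun _ _ => (), fun _ => 0⟩

theorem step_iff (x : List Bool) (q : St) (s : Finset ℕ) (j : ℕ) (c' : PM.Cfg) :
    PM.Step x (cf q s j) c' ↔
      ∃ a ∈ tb q x[∑ i ∈ s, 2 ^ i]? (decide (j ∈ s), decide (j = 0)),
        c' = cf a.1 (if a.2.1 then insert j s else s.erase j) (a.2.2.apply j) := by
  have key : ∀ a : PM.Q × (Bool × Move) × (Fin PM.k → PM.Γ × Move),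
      (cf q s j).next a = cf a.1 (if a.2.1.1 then insert j s else s.erase j) (a.2.1.2.apply j) := by
    intro a
    simp only [ATM.Cfg.next, cf]
    congr 1
    · funext i; exact i.elim0
  constructor
  · rintro ⟨a, ha, rfl⟩
    exact ⟨(a.1, a.2.1), ha, key a⟩
  · rintro ⟨a, ha, rfl⟩
    exact ⟨(a.1, a.2, fun i => i.elim0), ha, (key (a.1, a.2, fun i => i.elim0)).symm⟩

theorem same (s : Finset ℕ) (j : ℕ) :
    (if decide (j ∈ s) = true then insert j s else s.erase j) = s := by
  by_cases h : j ∈ s
  · simp [h]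
  · simp [h]

/-- the parity of the block of length `2 ^ j` that starts at `a` -/
def blk (x : List Bool) : ℕ → ℕ → Bool
  | 0, a => x[a]?.getD false
  | j + 1, a => xor (blk x j a) (blk x j (a + 2 ^ j))

theorem blk_eq (x : List Bool) (j : ℕ) :
    ∀ a, (blk x j a = true ↔ Odd (((x.drop a).take (2 ^ j)).count true)) := by
  induction j with
  | zero =>
    intro a
    simp only [blk, pow_zero]
    rw [show x[a]? = (x.drop a)[0]? by simp]
    cases x.drop a with
    | nil => simp
    | cons b l =>
      rw [show List.take 1 (b :: l) = [b] from by simp [List.take]]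
      cases b <;> simp
  | succ j ih =>
    intro a
    rw [pow_succ, mul_two, List.take_add, List.count_append, List.drop_drop, Nat.odd_add,
      ← Nat.not_odd_iff_even, ← ih, ← ih]
    simp only [blk]
    cases blk x j a <;> cases blk x j (a + 2 ^ j) <;> simp

theorem halts_acc (x : List Bool) (s : Finset ℕ) (j : ℕ) : PM.HaltsIn x 0 (cf .acc s j) := by
  intro c' h
  rw [step_iff] at h
  simp [tb] at h

theorem acc_acc (x : List Bool) (s : Finset ℕ) (j : ℕ) : PM.Acc x (cf .acc s j) :=
  (ATM.acc_all rfl).2 fun c' h => absurd h (halts_acc x s j c')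

theorem halts_ex (x : List Bool) (j : ℕ) :
    ∀ c s, PM.HaltsIn x (2 * j + 1) (cf (.ex c) s j) := by
  induction j with
  | zero =>
    intro c s c' h
    rw [step_iff] at h
    obtain ⟨a, ha, rfl⟩ := h
    simp only [tb, decide_true] at ha
    split_ifs at ha
    · rw [List.mem_singleton] at ha
      subst ha
      exact halts_acc _ _ _
    · simp at ha
  | succ j ih =>
    have hun : ∀ c₀ c₁ s, PM.HaltsIn x (2 * j + 1 + 1) (cf (.un c₀ c₁) s j) := by
      intro c₀ c₁ s c' h
      rw [step_iff] at h
      obtain ⟨a, ha, rfl⟩ := h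
      simp only [tb, List.mem_cons, List.not_mem_nil, or_false] at ha
      rcases ha with rfl | rfl <;> exact ih _ _
    intro c s c' h
    rw [step_iff] at h
    obtain ⟨a, ha, rfl⟩ := h
    simp only [Nat.succ_ne_zero, decide_false, tb, List.mem_cons, List.not_mem_nil,
      or_false] at ha
    rcases ha with rfl | rfl <;> exact hun _ _ _

theorem acc_ex (x : List Bool) (j : ℕ) : ∀ (c : Bool) (s : Finset ℕ), (∀ i ∈ s, j ≤ i) →
    (PM.Acc x (cf (.ex c) s j) ↔ blk x j (∑ i ∈ s, 2 ^ i) = c) := by
  induction j with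
  | zero =>
    intro c s _
    rw [ATM.acc_ex rfl]
    simp only [step_iff, tb, decide_true, blk]
    constructor
    · rintro ⟨c', ⟨a, ha, _⟩, _⟩
      split_ifs at ha with h
      · exact h
      · simp at ha
    · intro h
      exact ⟨_, ⟨(.acc, decide (0 ∈ s), .stay), by simp [h], rfl⟩, acc_acc _ _ _⟩
  | succ j ih =>
    have hun : ∀ c₀ c₁ (s : Finset ℕ), (∀ i ∈ s, j + 1 ≤ i) → (PM.Acc x (cf (.un c₀ c₁) s j) ↔
        blk x j (∑ i ∈ s, 2 ^ i) = c₀ ∧ blk x j (∑ i ∈ s, 2 ^ i + 2 ^ j) = c₁) := by
      intro c₀ c₁ s hs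
      have hj : j ∉ s := fun h => by have := hs j h; omega
      have h0 := ih c₀ s (fun i hi => by have := hs i hi; omega)
      have h1 := ih c₁ (insert j s) (fun i hi => by
        rcases Finset.mem_insert.1 hi with rfl | hi
        · exact le_rfl
        · have := hs i hi; omega)
      rw [Finset.sum_insert hj, add_comm] at h1
      rw [ATM.acc_all rfl, ← h0, ← h1]
      simp only [step_iff, tb, List.mem_cons, List.not_mem_nil, or_false]
      constructor
      · intro h
        refine ⟨h _ ⟨_, Or.inl rfl, ?_⟩, h _ ⟨_, Or.inr rfl, ?_⟩⟩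
        · simp [Move.apply, Finset.erase_eq_of_notMem hj]
        · simp [Move.apply]
      · rintro ⟨h2, h3⟩ c' ⟨a, rfl | rfl, rfl⟩
        · simpa [Move.apply, Finset.erase_eq_of_notMem hj] using h2
        · simpa [Move.apply] using h3
    intro c s hs
    rw [ATM.acc_ex rfl]
    simp only [step_iff, Nat.succ_ne_zero, decide_false, tb, List.mem_cons, List.not_mem_nil,
      or_false, blk]
    constructor
    · rintro ⟨c', ⟨a, rfl | rfl, rfl⟩, h⟩
      · simp only [same, Move.apply, Nat.add_sub_cancel, hun _ _ s hs] at h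
        rw [h.1, h.2]; simp
      · simp only [same, Move.apply, Nat.add_sub_cancel, hun _ _ s hs] at h
        rw [h.1, h.2]; simp
    · intro h
      cases h0 : blk x j (∑ i ∈ s, 2 ^ i)
      · refine ⟨_, ⟨_, Or.inl rfl, rfl⟩, ?_⟩
        simp only [same, Move.apply, Nat.add_sub_cancel, hun _ _ s hs]
        rw [h0] at h
        exact ⟨h0, by simpa using h⟩
      · refine ⟨_, ⟨_, Or.inr rfl, rfl⟩, ?_⟩
        simp only [same, Move.apply, Nat.add_sub_cancel, hun _ _ s hs]
        rw [h0] at h
        exact ⟨h0, by rw [← h]; simp⟩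

theorem step_put (x : List Bool) (i : ℕ) (c' : PM.Cfg) :
    PM.Step x (cf .put ∅ i) c' ↔ c' = cf .chk {i} i := by
  simp [step_iff, tb, Move.apply]

theorem step_chk1 (x : List Bool) (i : ℕ) (h : x.length ≤ 2 ^ i) (c' : PM.Cfg) :
    PM.Step x (cf .chk {i} i) c' ↔ c' = cf (.ex true) ∅ i := by
  simp [step_iff, tb, Move.apply, List.getElem?_eq_none h]

theorem step_chk2 (x : List Bool) (i : ℕ) (h : 2 ^ i < x.length) (c' : PM.Cfg) :
    PM.Step x (cf .chk {i} i) c' ↔ c' = cf .put ∅ (i + 1) := by
  simp [step_iff, tb, Move.apply, List.getElem?_eq_getElem h]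

theorem put_main (x : List Bool) (d : ℕ) : ∀ i, x.length ≤ 2 ^ (i + d) →
    PM.HaltsIn x (2 * d + 2 * (i + d) + 1 + 1 + 1) (cf .put ∅ i) ∧
      (PM.Acc x (cf .put ∅ i) ↔ x ∈ parity) := by
  have base : ∀ i, x.length ≤ 2 ^ i → PM.HaltsIn x (2 * i + 1 + 1 + 1) (cf .put ∅ i) ∧
      (PM.Acc x (cf .put ∅ i) ↔ x ∈ parity) := by
    intro i hi
    constructor
    · intro c' h
      rw [step_put] at h
      subst h
      intro c' h
      rw [step_chk1 x i hi] at h
      subst h
      exact halts_ex x i _ _
    · rw [ATM.acc_ex rfl]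
      simp only [step_put, exists_eq_left]
      rw [ATM.acc_ex rfl]
      simp only [step_chk1 x i hi, exists_eq_left]
      rw [acc_ex x i true ∅ (by simp), blk_eq]
      simp [parity, List.take_of_length_le hi]
  induction d with
  | zero => intro i hi; simpa using base i hi
  | succ d ih =>
    intro i hi
    by_cases h : x.length ≤ 2 ^ i
    · exact ⟨(base i h).1.mono (by omega), (base i h).2⟩
    · obtain ⟨h1, h2⟩ := ih (i + 1) (by rwa [show i + 1 + d = i + (d + 1) by ring])
      constructor
      · intro c' h'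
        rw [step_put] at h'
        subst h'
        intro c' h'
        rw [step_chk2 x i (by omega)] at h'
        subst h'
        exact h1.mono (by omega)
      · rw [ATM.acc_ex rfl]
        simp only [step_put, exists_eq_left]
        rw [ATM.acc_ex rfl]
        simp only [step_chk2 x i (by omega), exists_eq_left]
        exact h2

theorem parity_alogtime : ALogTime parity := by
  refine ⟨PM, 7, fun x => ?_⟩
  obtain ⟨h1, h2⟩ := put_main x (Nat.log 2 x.length + 1) 0
    (by rw [zero_add]; exact (Nat.lt_pow_succ_log_self (by norm_num) _).le)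
  exact ⟨h1.mono (by omega), h2.symm⟩

theorem main : ∃ (G : Type) (_ : Group G), Group.FG G ∧ ¬ Group.IsSolvable G ∧
    ∀ (A : Type) [Finite A] (π : A → G) (k : ℕ) (enc : A → Fin k → Bool),
      Function.Injective enc → ¬ ALogTimeHard (wordProblem π enc) :=
  ⟨GG 0, inferInstance, GG_fg 0, GG_not_solvable 0, fun _ _ π _ _ henc h =>
    parity_not_reducible π henc (h parity parity_alogtime)⟩

end H345Z.WP
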