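import Pool.Agent.H345Z.WP.Grp

/-!
# The group is finitely generated and not solvable
-/

namespace H345Z.WP

open Finset
open scoped commutatorElement

/-- the generators at level `i` -/
def gens (i : ℕ) : Set (Equiv.Perm (List X)) :=
  insert (bb 1 i) ((fun j => tr (Pi.single j 1)) '' {j | j < rk i})

/-- the group at level `i` -/
def GG (i : ℕ) : Subgroup (Equiv.Perm (List X)) := Subgroup.closure (gens i)

theorem gens_finite (i : ℕ) : (gens i).Finite :=
  ((Set.finite_lt_nat (rk i)).image _).insert _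

theorem GG_fg (i : ℕ) : Group.FG (GG i) :=
  (Group.fg_iff_subgroup_fg _).2 ((Subgroup.fg_iff _).2 ⟨gens i, rfl, gens_finite i⟩)

theorem bb_mem (i : ℕ) : bb 1 i ∈ GG i := Subgroup.subset_closure (Set.mem_insert _ _)

theorem tr_single_mem {i j : ℕ} (hj : j < rk i) (c : F) : tr (Pi.single j c) ∈ GG i := by
  have h1 : tr (Pi.single j 1) ∈ GG i :=
    Subgroup.subset_closure (Set.mem_insert_of_mem _ ⟨j, hj, rfl⟩)
  have h3 : c = 0 ∨ c = 1 ∨ c = 1 + 1 := by revert c; decide
  rcases h3 with rfl | rfl | rfl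
  · rw [Pi.single_zero, tr_zero]; exact one_mem _
  · exact h1
  · rw [Pi.single_add, ← tr_mul]; exact mul_mem h1 h1

theorem tr_mem {i : ℕ} {v : X} (hv : ∀ m, rk i ≤ m → v m = 0) : tr v ∈ GG i := by
  have key : ∀ s : Finset ℕ, (∀ m ∈ s, m < rk i) → tr (∑ m ∈ s, Pi.single m (v m)) ∈ GG i := by
    intro s
    induction s using Finset.induction_on with
    | empty => intro _; rw [Finset.sum_empty, tr_zero]; exact one_mem _
    | insert a s ha ih =>
      intro h
      rw [Finset.sum_insert ha, ← tr_mul]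
      exact mul_mem (tr_single_mem (h a (Finset.mem_insert_self _ _)) _)
        (ih fun m hm => h m (Finset.mem_insert_of_mem hm))
  have h1 : v = ∑ m ∈ range (rk i), Pi.single m (v m) := by
    funext t
    rw [Finset.sum_apply]
    by_cases ht : t < rk i
    · rw [Finset.sum_eq_single t, Pi.single_eq_same]
      · intro b _ hb
        exact Pi.single_eq_of_ne (Ne.symm hb) _
      · intro h
        exact absurd (Finset.mem_range.2 ht) h
    · rw [hv t (by omega)]
      refine (Finset.sum_eq_zero fun m hm => ?_).symm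
      rw [Finset.mem_range] at hm
      exact Pi.single_eq_of_ne (by omega) _
  rw [h1]
  exact key _ fun m hm => Finset.mem_range.1 hm

/-- `g` fixes the vertex `0` and acts as `g'` below it -/
def Sec (g g' : Equiv.Perm (List X)) : Prop := ∀ xs, g (0 :: xs) = 0 :: g' xs

theorem Sec.one : Sec 1 1 := fun _ => rfl

theorem Sec.mul {g g' h h' : Equiv.Perm (List X)} (h1 : Sec g g') (h2 : Sec h h') :
    Sec (g * h) (g' * h') := fun xs => by
  rw [Equiv.Perm.mul_apply, h2, h1]; rfl

theorem Sec.inv {g g' : Equiv.Perm (List X)} (h : Sec g g') : Sec g⁻¹ g'⁻¹ := fun xs => by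
  rw [Equiv.Perm.inv_eq_iff_eq, h]
  simp

/-- every element of `K'` is the section of an element of `K` -/
def Lift (K K' : Subgroup (Equiv.Perm (List X))) : Prop := ∀ g' ∈ K', ∃ g ∈ K, Sec g g'

theorem lift_closure {K : Subgroup (Equiv.Perm (List X))} {s : Set (Equiv.Perm (List X))}
    (h : ∀ g' ∈ s, ∃ g ∈ K, Sec g g') : Lift K (Subgroup.closure s) := by
  intro g' hg'
  induction hg' using Subgroup.closure_induction with
  | mem x hx => exact h x hx
  | one => exact ⟨1, one_mem _, Sec.one⟩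
  | mul x y _ _ hx hy =>
    obtain ⟨a, ha, hax⟩ := hx
    obtain ⟨b, hb, hby⟩ := hy
    exact ⟨a * b, mul_mem ha hb, hax.mul hby⟩
  | inv x _ hx =>
    obtain ⟨a, ha, hax⟩ := hx
    exact ⟨a⁻¹, inv_mem ha, hax.inv⟩

theorem Lift.commutator {K K' : Subgroup (Equiv.Perm (List X))} (h : Lift K K') :
    Lift ⁅K, K⁆ ⁅K', K'⁆ := by
  rw [Subgroup.commutator_def K' K']
  refine lift_closure ?_
  rintro _ ⟨x, hx, y, hy, rfl⟩
  obtain ⟨a, ha, hax⟩ := h x hx
  obtain ⟨b, hb, hby⟩ := h y hy
  refine ⟨⁅a, b⁆, Subgroup.commutator_mem_commutator ha hb, ?_⟩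
  rw [commutatorElement_def, commutatorElement_def]
  exact ((hax.mul hby).mul hax.inv).mul hby.inv

theorem Lift.ne_bot {K K' : Subgroup (Equiv.Perm (List X))} (h : Lift K K') (h' : K' ≠ ⊥) :
    K ≠ ⊥ := by
  rintro rfl
  apply h'
  rw [eq_bot_iff]
  intro g' hg'
  obtain ⟨g, hg, hs⟩ := h g' hg'
  rw [Subgroup.mem_bot] at hg ⊢
  subst hg
  refine Equiv.ext fun xs => ?_
  have := hs xs
  exact ((List.cons.inj this).2).symm

/-- the iterated commutator subgroups -/
def der : ℕ → Subgroup (Equiv.Perm (List X)) → Subgroup (Equiv.Perm (List X))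
  | 0, K => K
  | d + 1, K => ⁅der d K, der d K⁆

theorem der_succ (d : ℕ) (K : Subgroup (Equiv.Perm (List X))) : der (d + 1) K = der d ⁅K, K⁆ := by
  induction d with
  | zero => rfl
  | succ d ih => rw [der, ih]; rfl

theorem Lift.der {K K' : Subgroup (Equiv.Perm (List X))} (h : Lift K K') (d : ℕ) :
    Lift (der d K) (der d K') := by
  induction d with
  | zero => exact h
  | succ d ih => exact ih.commutator

theorem bb_cons (c : F) (i : ℕ) (x : X) (xs : List X) :
    bb c i (x :: xs) = x :: act (i + 1) (secL i x (0, c)) xs := by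
  have := act_cons i (0, c) x xs
  rwa [act, tr_zero, one_mul, add_zero] at this

theorem sec_commutator {i o : ℕ} (ho : o ≤ rk (i + 1)) :
    ∃ g ∈ ⁅GG i, GG i⁆, Sec g (act (i + 1) (secL i (sp i o) (0, 1))) := by
  have h1 : tr (sp i o) ∈ GG i := tr_mem fun m hm => sp_supp ho hm
  have h2 : tr (Pi.single 0 1) ∈ GG i := tr_single_mem (rk_pos i) 1
  have h3 : (tr (sp i o))⁻¹ * bb 1 i * tr (sp i o) ∈ GG i :=
    mul_mem (mul_mem (inv_mem h1) (bb_mem i)) h1
  refine ⟨⁅(tr (sp i o))⁻¹ * bb 1 i * tr (sp i o), (tr (Pi.single 0 1))⁻¹⁆,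
    Subgroup.commutator_mem_commutator h3 (inv_mem h2), ?_⟩
  have h4 : ∀ o' ≤ rk (i + 1), (0 + Pi.single 0 1 + sp i o : X) ≠ sp i o' := by
    intro o' _ h
    have h5 := sp_far (i := i) (o := o) (o' := o') {0} (by have := two_le_sg i; simp; omega) (by
      intro m hm
      rw [← h]
      simp [Pi.single_eq_of_ne (show m ≠ 0 by simpa using hm)])
    subst h5
    have h6 := congrFun h 0
    simp at h6
  intro xs
  rw [commutatorElement_def]
  simp only [mul_inv_rev, inv_inv, tr_inv, bb_inv, neg_neg, Equiv.Perm.mul_apply, tr_apply, trF]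
  rw [bb_cons, secL_of_not h4, act_zero]
  simp only [trF, Equiv.Perm.coe_one, id_eq]
  rw [show (0 + Pi.single 0 1 + sp i o + -sp i o + -Pi.single 0 1 + sp i o : X) = sp i o by abel,
    bb_cons]
  simp only [trF, add_neg_cancel]

theorem lift_GG (i : ℕ) : Lift ⁅GG i, GG i⁆ (GG (i + 1)) := by
  refine lift_closure ?_
  rintro g' (rfl | ⟨j, hj, rfl⟩)
  · have := sec_commutator (i := i) (o := 0) (Nat.zero_le _)
    rwa [sp_zero, secL, dec_zero, if_pos rfl, smul_zero, act, tr_zero, one_mul] at this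
  · have := sec_commutator (i := i) (o := j + 1) hj
    rwa [secL, dec_sp hj, if_neg (sp_succ_ne i j), one_smul, act, bb_zero, mul_one] at this

theorem der_ne_bot (d : ℕ) : ∀ i, der d (GG i) ≠ ⊥ := by
  induction d with
  | zero =>
    intro i h
    have h1 := bb_mem i
    rw [show GG i = ⊥ from h, Subgroup.mem_bot, bb_eq_one] at h1
    exact absurd h1 (by decide)
  | succ d ih =>
    intro i
    rw [der_succ]
    exact ((lift_GG i).der d).ne_bot (ih (i + 1))

theorem map_derivedSeries (K : Subgroup (Equiv.Perm (List X))) (d : ℕ) :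
    (derivedSeries K d).map K.subtype = der d K := by
  induction d with
  | zero => simp [der, ← MonoidHom.range_eq_map]
  | succ d ih => rw [derivedSeries_succ, Subgroup.map_commutator, ih, der]

theorem GG_not_solvable (i : ℕ) : ¬ Group.IsSolvable (GG i) := by
  rintro ⟨d, hd⟩
  apply der_ne_bot d i
  rw [← map_derivedSeries, hd, Subgroup.map_bot]

/-- every element of the group is given by a list of well formed letters -/
theorem exists_word {i : ℕ} {g : Equiv.Perm (List X)} (hg : g ∈ GG i) :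
    ∃ u : List Letter, (∀ a ∈ u, WF i a) ∧ (u.map (act i)).prod = g := by
  have hw : ∀ (j : ℕ) (c : F), j < rk i → WF i (Pi.single j c, 0) := by
    intro j c hj
    refine ⟨⟨j, fun m hm => Pi.single_eq_of_ne hm _⟩, fun m hm => Pi.single_eq_of_ne (by omega) _⟩
  have hb : ∀ c : F, WF i (0, c) := fun c => ⟨⟨0, fun _ _ => rfl⟩, fun _ _ => rfl⟩
  induction hg using Subgroup.closure_induction'' with
  | mem x hx =>
    rcases hx with rfl | ⟨j, hj, rfl⟩
    · exact ⟨[(0, 1)], by simpa using hb 1, by simp [act, tr_zero]⟩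
    · exact ⟨[(Pi.single j 1, 0)], by simpa using hw j 1 hj, by simp [act, bb_zero]⟩
  | inv_mem x hx =>
    rcases hx with rfl | ⟨j, hj, rfl⟩
    · exact ⟨[(0, -1)], by simpa using hb (-1), by simp [act, tr_zero, bb_inv]⟩
    · refine ⟨[(Pi.single j (-1), 0)], by simpa using hw j (-1) hj, ?_⟩
      simp [act, bb_zero, tr_inv, Pi.single_neg]
  | one => exact ⟨[], by simp, by simp⟩
  | mul x y _ _ hx hy =>
    obtain ⟨u, hu, rfl⟩ := hx
    obtain ⟨u', hu', rfl⟩ := hy
    refine ⟨u ++ u', ?_, by simp⟩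
    intro a ha
    rcases List.mem_append.1 ha with h | h
    exacts [hu a h, hu' a h]

end H345Z.WP
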