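import Pool.Agent.H345Z.WP.Solv

/-!
# Triviality of a word is approximable by functions of low degree
-/

namespace H345Z.WP

open Finset

variable {V : Type} [Fintype V] [DecidableEq V] {N : ℕ}

/-- the data of all letters of a word that depends on a point are approximable -/
def Data (d e : ℕ) (w : Fin N → (V → Bool) → Letter) : Prop :=
  ∀ l, (∀ m, Apx d e (fun y => (w l y).1 m)) ∧ Apx d e (fun y => (w l y).2)

theorem apx_vec_eq (t : ℕ) {d e r : ℕ} {u : (V → Bool) → X} (hu : ∀ m, Apx d e (fun y => u y m))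
    (hs : ∀ y m, r ≤ m → u y m = 0) {z : X} (hz : ∀ m, r ≤ m → z m = 0) :
    ApxP (2 * t * (2 * d)) (r * e + eta V t) (fun y => u y = z) := by
  have h1 := ApxP.all (range r) t (P := fun m y => u y m = z m)
    (fun m _ => (hu m).eq_const (z m))
  rw [Finset.card_range] at h1
  refine h1.congr fun y => ⟨fun h => ?_, fun h m _ => by rw [h]⟩
  funext m
  by_cases hm : m < r
  · exact h m (Finset.mem_range.2 hm)
  · rw [hs y m (by omega), hz m (by omega)]

theorem apx_suf {d e : ℕ} {w : Fin N → (V → Bool) → Letter} (hw : Data d e w) (l : Fin N)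
    (m : ℕ) : Apx d (N * e) (fun y => suf (fun l => w l y) l m) := by
  have h1 := Apx.sum (univ.filter (fun u => l < u)) (f := fun u y => (w u y).1 m)
    (fun u _ => (hw u).1 m)
  refine (h1.mono le_rfl (Nat.mul_le_mul_right _ ?_)).congr fun y => ?_
  · exact (Finset.card_filter_le _ _).trans (by simp)
  · unfold suf
    rw [Finset.sum_apply]

omit [Fintype V] [DecidableEq V] in
theorem suf_supp {i : ℕ} {w : Fin N → Letter} (hw : ∀ l, WF i (w l)) (l : Fin N) (m : ℕ)
    (hm : rk i ≤ m) : suf w l m = 0 := by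
  unfold suf
  rw [Finset.sum_apply]
  exact Finset.sum_eq_zero fun u _ => (hw u).2 m hm

theorem apx_diff (t : ℕ) {i d e : ℕ} {w : Fin N → (V → Bool) → Letter} (hw : Data d e w)
    (hWF : ∀ l y, WF i (w l y)) (l l' : Fin N) {o o' : ℕ} (ho : o ≤ rk (i + 1))
    (ho' : o' ≤ rk (i + 1)) :
    ApxP (2 * t * (2 * d)) (rk i * (N * e + N * e) + eta V t)
      (fun y => sp i o - suf (fun l => w l y) l + suf (fun l => w l y) l' = sp i o') := by
  have h1 := apx_vec_eq t (r := rk i)
    (u := fun y => suf (fun l => w l y) l' - suf (fun l => w l y) l)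
    (fun m => (apx_suf hw l' m).sub (apx_suf hw l m))
    (fun y m hm => by
      rw [Pi.sub_apply, suf_supp (fun l => hWF l y) _ m hm, suf_supp (fun l => hWF l y) _ m hm,
        sub_zero])
    (z := sp i o' - sp i o) (fun m hm => by
      rw [Pi.sub_apply, sp_supp ho hm, sp_supp ho' hm, sub_zero])
  refine h1.congr fun y => ⟨fun h => ?_, fun h => ?_⟩
  · rw [sub_eq_iff_eq_add] at h
    rw [h]; abel
  · rw [← h]; abel

theorem data_sec (t : ℕ) {i d e : ℕ} {w : Fin N → (V → Bool) → Letter} (hw : Data d e w)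
    (hWF : ∀ l y, WF i (w l y)) (l : Fin N) {o : ℕ} (ho : o ≤ rk (i + 1)) :
    Data (d + 2 * t * (2 * d)) (e + (rk i * (N * e + N * e) + eta V t))
      (fun l' y => secW i (sp i o - suf (fun l => w l y) l) (fun l => w l y) l') := by
  classical
  intro l'
  constructor
  · intro m
    by_cases hm : m < rk (i + 1)
    · refine (Apx.mul (hw l').2 (apx_diff t hw hWF l l' ho (o' := m + 1) hm)).congr fun y => ?_
      simp only [secW, secL, Pi.smul_apply, dec, smul_eq_mul, ind, hm, true_and]
    · refine (Apx.const _ _ 0).congr fun y => ?_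
      simp only [secW, secL, Pi.smul_apply, dec, hm, false_and, if_false, smul_zero]
  · refine (Apx.mul (hw l').2 (apx_diff t hw hWF l l' ho (o' := 0) (Nat.zero_le _))).congr
      fun y => ?_
    simp only [secW, secL, ind, sp_zero]
    split_ifs <;> simp

theorem apx_sum_fst (t : ℕ) {i d e : ℕ} {w : Fin N → (V → Bool) → Letter} (hw : Data d e w)
    (hWF : ∀ l y, WF i (w l y)) :
    ApxP (2 * t * (2 * d)) (rk i * (N * e) + eta V t) (fun y => ∑ l, (w l y).1 = 0) := by
  refine apx_vec_eq t (r := rk i) (u := fun y => ∑ l, (w l y).1) (fun m => ?_) (fun y m hm => ?_)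
    (fun _ _ => rfl)
  · have h1 := Apx.sum univ (f := fun u y => (w u y).1 m) (fun u _ => (hw u).1 m)
    rw [Finset.card_univ, Fintype.card_fin] at h1
    exact h1.congr fun y => by rw [Finset.sum_apply]
  · rw [Finset.sum_apply]
    exact Finset.sum_eq_zero fun u _ => (hWF u y).2 m hm

theorem apx_triv (t R : ℕ) (ht : 1 ≤ t) (hN : N ≤ R) (k : ℕ) :
    ∀ (i d e : ℕ) (w : Fin N → (V → Bool) → Letter), rk (i + k) < R →
      (∀ l y, WF i (w l y)) → (∀ y, Good k i (fun l => w l y)) → Data d e w →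
      ApxP (d * (14 * t ^ 2) ^ (k + 1)) ((5 * R ^ 4) ^ (k + 1) * (e + eta V t))
        (fun y => ev i (fun l => w l y) = 1) := by
  induction k with
  | zero =>
    intro i d e w hR hWF hG hw
    have hR1 : 1 ≤ R := by omega
    have h1 := apx_sum_fst t hw hWF
    have h2 := Apx.sum univ (f := fun u y => (w u y).2) (fun u _ => (hw u).2)
    rw [Finset.card_univ, Fintype.card_fin] at h2
    have h3 := h1.and (h2.eq_const 0)
    refine (h3.mono ?_ ?_).congr fun y => (Pure.ev_eq_one_iff (hG y) i).symm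
    · have : t ≤ t ^ 2 := by nlinarith
      have : 1 ≤ t ^ 2 := by nlinarith
      rw [zero_add, pow_one]
      nlinarith
    · rw [zero_add, pow_one]
      have e1 : rk i * (N * e) ≤ R * (R * e) :=
        Nat.mul_le_mul (by simpa using hR.le) (Nat.mul_le_mul_right _ hN)
      have e2 : N * e ≤ R * e := Nat.mul_le_mul_right _ hN
      have e3 : R ≤ R ^ 4 := Nat.le_self_pow (by norm_num) _
      have e4 : R * R ≤ R ^ 4 := by
        calc R * R = R ^ 2 := by ring
          _ ≤ R ^ 4 := Nat.pow_le_pow_right hR1 (by norm_num)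
      have e5 : R * (R * e) ≤ R ^ 4 * e := by rw [← mul_assoc]; exact Nat.mul_le_mul_right _ e4
      have e6 : R * e ≤ R ^ 4 * e := Nat.mul_le_mul_right _ e3
      have e7 : eta V t ≤ R ^ 4 * eta V t := Nat.le_mul_of_pos_left _ (by positivity)
      nlinarith
  | succ k ih =>
    intro i d e w hR hWF hG hw
    have hR1 : 1 ≤ R := by omega
    have hri : rk i ≤ R := (rk_mono (by omega)).trans hR.le
    have hri1 : rk (i + 1) + 1 ≤ R := lt_of_le_of_lt (rk_mono (by omega)) hR
    set η := eta V t with hη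
    have hd' : d + 2 * t * (2 * d) ≤ 5 * t * d := by nlinarith
    have he' : e + (rk i * (N * e + N * e) + η) + η ≤ 3 * R ^ 2 * (e + η) := by
      have e1 : rk i * (N * e + N * e) ≤ R * (R * e + R * e) :=
        Nat.mul_le_mul hri (Nat.add_le_add (Nat.mul_le_mul_right _ hN) (Nat.mul_le_mul_right _ hN))
      have e2 : 1 ≤ R ^ 2 := Nat.one_le_pow _ _ hR1
      nlinarith
    have h1 : ∀ q ∈ (univ : Finset (Fin N)) ×ˢ range (rk (i + 1) + 1),
        ApxP (5 * t * d * (14 * t ^ 2) ^ (k + 1)) ((5 * R ^ 4) ^ (k + 1) * (3 * R ^ 2 * (e + η)))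
          (fun y => ev (i + 1) (secW i (sp i q.2 - suf (fun l => w l y) q.1) (fun l => w l y)) = 1) := by
      intro q hq
      have ho : q.2 ≤ rk (i + 1) := by
        simp only [Finset.mem_product, Finset.mem_range] at hq
        omega
      have h2 := ih (i + 1) _ _ _ (by rwa [show i + 1 + k = i + (k + 1) by ring])
        (fun l y => secL_WF _ _ _) (fun y => hG y _) (data_sec t hw hWF q.1 ho)
      exact h2.mono (Nat.mul_le_mul_right _ hd') (Nat.mul_le_mul_left _ he')
    have h3 := (apx_sum_fst t hw hWF).and (ApxP.all _ t h1)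
    refine (h3.mono ?_ ?_).congr fun y => (ev_eq_one_iff' i _).symm
    · have e1 : 1 ≤ (14 * t ^ 2) ^ (k + 1) := Nat.one_le_pow _ _ (by positivity)
      rw [pow_succ (14 * t ^ 2) (k + 1)]
      set Z := (14 * t ^ 2) ^ (k + 1)
      have e2 : t * d ≤ t ^ 2 * d * Z := by
        calc t * d = t * d * 1 * 1 := by ring
          _ ≤ t * d * t * Z := by gcongr
          _ = t ^ 2 * d * Z := by ring
      nlinarith
    · rw [Finset.card_product, Finset.card_univ, Fintype.card_fin, Finset.card_range, ← hη,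
        pow_succ (5 * R ^ 4) (k + 1)]
      have e1 : 1 ≤ (5 * R ^ 4) ^ (k + 1) := Nat.one_le_pow _ _ (by positivity)
      set Z := (5 * R ^ 4) ^ (k + 1)
      have e2 : N * (rk (i + 1) + 1) * (Z * (3 * R ^ 2 * (e + η))) ≤
          R * R * (Z * (3 * R ^ 2 * (e + η))) := Nat.mul_le_mul_right _ (Nat.mul_le_mul hN hri1)
      have e3 : rk i * (N * e) ≤ R * (R * e) := Nat.mul_le_mul hri (Nat.mul_le_mul_right _ hN)
      have e4 : R * (R * e) ≤ Z * R ^ 4 * e := by
        calc R * (R * e) = 1 * R ^ 2 * e := by ring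
          _ ≤ Z * R ^ 4 * e := by gcongr; norm_num
      have e5 : η ≤ Z * R ^ 4 * η := Nat.le_mul_of_pos_left _ (by positivity)
      nlinarith

end H345Z.WP
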